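import Mathlib

/-!
# Pseudo-Riemannian metrics, parallel tensors and double covers

The definitions used in the statement about MP_4926dc_gt.
-/

open Bundle VectorField Set
open scoped Manifold ContDiff Topology

set_option autoImplicit false

namespace Pool.Agent.Helper80.PR

variable {E : Type*} [NormedAddCommGroup E] [NormedSpace ℝ E]
  {H : Type*} [TopologicalSpace H] (I : ModelWithCorners ℝ E H)
  (M : Type*) [TopologicalSpace M] [ChartedSpace H M] [IsManifold I ∞ M]

/-- A smooth pseudo-Riemannian metric (of arbitrary signature) on the smooth manifold `M`: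
a symmetric nondegenerate bilinear form `inner x` on every tangent space `T_x M`, depending
smoothly (`C^∞`) on `x` as a section of the bundle `Hom(TM, Hom(TM, ℝ))`. -/
structure PseudoMetric where
  /-- the bilinear form on each tangent space -/
  inner (x : M) : TangentSpace I x →L[ℝ] TangentSpace I x →L[ℝ] ℝ
  symm (x : M) (v w : TangentSpace I x) : inner x v w = inner x w v
  nondegenerate (x : M) (v : TangentSpace I x) (hv : ∀ w, inner x v w = 0) : v = 0
  contMDiff : ContMDiff I (I.prod 𝓘(ℝ, E →L[ℝ] E →L[ℝ] ℝ)) ∞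
    (fun x ↦ TotalSpace.mk' (E →L[ℝ] E →L[ℝ] ℝ)
      (E := fun x : M ↦ TangentSpace I x →L[ℝ] TangentSpace I x →L[ℝ] ℝ) x (inner x))

variable {I M}

/-- `V` is a smooth (`C^∞`) vector field. -/
def SmoothField (V : Π x : M, TangentSpace I x) : Prop :=
  ContMDiff I I.tangent ∞ (fun x ↦ (⟨x, V x⟩ : TangentBundle I M))

/-- `Y` is a vector field differentiable at the point `x`. -/
def DiffFieldAt (Y : Π x : M, TangentSpace I x) (x : M) : Prop :=
  MDifferentiableAt I I.tangent (fun y ↦ (⟨y, Y y⟩ : TangentBundle I M)) x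

/-- The covariant derivative `cov` on the tangent bundle is the Levi-Civita connection of `g`:
it is torsion-free, `∇_X Y - ∇_Y X = [X, Y]`, and compatible with the metric,
`d(g(Y, Z))(v) = g(∇_v Y, Z) + g(Y, ∇_v Z)`.
(In Mathlib's convention `cov Y x v` is `∇_v Y` at the point `x`.) -/
structure IsLeviCivita (g : PseudoMetric I M)
    (cov : CovariantDerivative I E (TangentSpace I : M → Type _)) : Prop where
  torsion_free : ∀ (X Y : Π x : M, TangentSpace I x) (x : M), DiffFieldAt X x → DiffFieldAt Y x →
    cov Y x (X x) - cov X x (Y x) = mlieBracket I X Y x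
  metric : ∀ (Y Z : Π x : M, TangentSpace I x) (x : M), DiffFieldAt Y x → DiffFieldAt Z x →
    ∀ v : TangentSpace I x, mvfderiv I (fun y ↦ g.inner y (Y y) (Z y)) x v
        = g.inner x (cov Y x v) (Z x) + g.inner x (Y x) (cov Z x v)

/-- `(M, g)` carries a nonzero, smooth, `g`-self-adjoint, parallel, nilpotent `(1,1)`-tensor
field `A`. Parallel means `∇_v (A Y) = A (∇_v Y)` for the Levi-Civita connection. -/
def CarriesNilpotentTensor (g : PseudoMetric I M) : Prop :=
  ∃ cov : CovariantDerivative I E (TangentSpace I : M → Type _), IsLeviCivita g cov ∧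
    ∃ A : Π x : M, TangentSpace I x →L[ℝ] TangentSpace I x,
      ContMDiff I (I.prod 𝓘(ℝ, E →L[ℝ] E)) ∞
        (fun x ↦ TotalSpace.mk' (E →L[ℝ] E)
          (E := fun x : M ↦ TangentSpace I x →L[ℝ] TangentSpace I x) x (A x)) ∧
      (∃ x, A x ≠ 0) ∧
      (∀ (x : M) (v w : TangentSpace I x), g.inner x (A x v) w = g.inner x v (A x w)) ∧
      (∃ k : ℕ, 1 ≤ k ∧ ∀ x, (A x) ^ k = 0) ∧
      (∀ (Y : Π x : M, TangentSpace I x) (x : M), DiffFieldAt Y x →
        ∀ v : TangentSpace I x, cov (fun y ↦ A y (Y y)) x v = A x (cov Y x v))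

/-- `(M, g)` carries a parallel light-like (null) smooth vector field which is not identically
zero. -/
def CarriesNullParallelField (g : PseudoMetric I M) : Prop :=
  ∃ cov : CovariantDerivative I E (TangentSpace I : M → Type _), IsLeviCivita g cov ∧
    ∃ V : Π x : M, TangentSpace I x, SmoothField V ∧ (∃ x, V x ≠ 0) ∧
      (∀ x, g.inner x (V x) (V x) = 0) ∧ (∀ x, cov V x = 0)

/-- `p : (M', g') → (M, g)` is a double cover of pseudo-Riemannian manifolds: `M'` is connected,
`p` is a covering map all of whose fibres have exactly two elements, `p` is a (smooth) local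
diffeomorphism, and `g'` is the pulled-back metric `p^* g`. -/
structure IsDoubleCover {E' : Type*} [NormedAddCommGroup E'] [NormedSpace ℝ E']
    {H' : Type*} [TopologicalSpace H'] {I' : ModelWithCorners ℝ E' H'}
    {M' : Type*} [TopologicalSpace M'] [ChartedSpace H' M'] [IsManifold I' ∞ M']
    (g' : PseudoMetric I' M') (g : PseudoMetric I M) (p : M' → M) : Prop where
  connected : ConnectedSpace M'
  covering : IsCoveringMap p
  two_sheeted : ∀ x : M, (p ⁻¹' {x}).ncard = 2
  local_diffeo : IsLocalDiffeomorph I' I ∞ p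
  pullback : ∀ (x : M') (u v : TangentSpace I' x),
    g'.inner x u v = g.inner (p x) (mfderiv I' I p x u) (mfderiv I' I p x v)

end Pool.Agent.Helper80.PR
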