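import Pool.Agent.Helper80.PR.Defs

open Bundle VectorField Set
open scoped Manifold ContDiff Topology

set_option autoImplicit false
set_option linter.unusedSectionVars false

namespace Pool.Agent.Helper80.PR

section Lemmas


variable {E : Type*} [NormedAddCommGroup E] [NormedSpace ℝ E]
  {H : Type*} [TopologicalSpace H] {I : ModelWithCorners ℝ E H}
  {M : Type*} [TopologicalSpace M] [ChartedSpace H M] [IsManifold I ∞ M]

theorem contMDiff_mvfderiv_apply {F : Type*} [NormedAddCommGroup F] [NormedSpace ℝ F] {f : M → F} (hf : ContMDiff I 𝓘(ℝ, F) ∞ f)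
    {W : Π x : M, TangentSpace I x} (hW : CMDiff ∞ (T% W)) :
    ContMDiff I 𝓘(ℝ, F) ∞ (fun y ↦ mvfderiv I f y (W y)) := by
  have h1 : ContMDiff I.tangent 𝓘(ℝ, F).tangent ∞ (tangentMap I 𝓘(ℝ, F) f) :=
    hf.contMDiff_tangentMap (by simp)
  have h2 := h1.comp hW
  have h3 := (contMDiff_snd_tangentBundle_modelSpace F 𝓘(ℝ, F) (n := ∞)).comp h2
  exact h3

variable [CompleteSpace E]

theorem mvfderiv_mlieBracket {V W Z : Π x : M, TangentSpace I x}
    (hV : CMDiff ∞ (T% V)) (hW : CMDiff ∞ (T% W)) (hZ : CMDiff ∞ (T% Z))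
    {f : M → ℝ} (hf : ContMDiff I 𝓘(ℝ, ℝ) ∞ f) (x : M) (hx : Z x ≠ 0) :
    mvfderiv I f x (mlieBracket I V W x) =
      mvfderiv I (fun y ↦ mvfderiv I f y (W y)) x (V x)
        - mvfderiv I (fun y ↦ mvfderiv I f y (V y)) x (W x) := by
  have i3 : IsManifold I (minSmoothness ℝ 3) M := by
    rw [minSmoothness_of_isRCLikeNormedField]
    exact IsManifold.of_le (n := ∞) ENat.LEInfty.out
  have hm2 : minSmoothness ℝ 2 ≤ ∞ := by
    rw [minSmoothness_of_isRCLikeNormedField]; exact ENat.LEInfty.out
  have dV : ∀ y, MDiffAt (T% V) y := fun y => (hV y).mdifferentiableAt (by simp)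
  have dW : ∀ y, MDiffAt (T% W) y := fun y => (hW y).mdifferentiableAt (by simp)
  have dZ : ∀ y, MDiffAt (T% Z) y := fun y => (hZ y).mdifferentiableAt (by simp)
  have df : ∀ y, MDiffAt f y := fun y => (hf y).mdifferentiableAt (by simp)
  have hVf := contMDiff_mvfderiv_apply hf hV
  have hWf := contMDiff_mvfderiv_apply hf hW
  have dVf : ∀ y, MDiffAt (fun y ↦ mvfderiv I f y (V y)) y := fun y => (hVf y).mdifferentiableAt (by simp)
  have dWf : ∀ y, MDiffAt (fun y ↦ mvfderiv I f y (W y)) y := fun y => (hWf y).mdifferentiableAt (by simp)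
  have hfZ : CMDiff ∞ (T% (f • Z)) := hf.smul_section hZ
  have hVZ : CMDiff ∞ (T% (mlieBracket I V Z)) := by
    have : IsManifold I (∞ + 1) M := by simpa using (inferInstance : IsManifold I ∞ M)
    exact ContDiff.mlieBracket_vectorField (m := ⊤) (n := ⊤) hV hZ (by simp [minSmoothness_of_isRCLikeNormedField])
  have hWZ : CMDiff ∞ (T% (mlieBracket I W Z)) := by
    have : IsManifold I (∞ + 1) M := by simpa using (inferInstance : IsManifold I ∞ M)
    exact ContDiff.mlieBracket_vectorField (m := ⊤) (n := ⊤) hW hZ (by simp [minSmoothness_of_isRCLikeNormedField])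
  have J1 := leibniz_identity_mlieBracket_apply (I := I) (U := V) (V := W) (W := f • Z) (x := x)
    ((hV x).of_le hm2) ((hW x).of_le hm2) ((hfZ x).of_le hm2)
  have J2 := leibniz_identity_mlieBracket_apply (I := I) (U := V) (V := W) (W := Z) (x := x)
    ((hV x).of_le hm2) ((hW x).of_le hm2) ((hZ x).of_le hm2)
  have e1 : mlieBracket I W (f • Z) = (fun y ↦ mvfderiv I f y (W y)) • Z + f • mlieBracket I W Z := by
    funext y
    exact mlieBracket_smul_right (df y) (dZ y)
  have e2 : mlieBracket I V (f • Z) = (fun y ↦ mvfderiv I f y (V y)) • Z + f • mlieBracket I V Z := by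
    funext y
    exact mlieBracket_smul_right (df y) (dZ y)
  rw [e1, e2] at J1
  have dhZ : ∀ (h : M → ℝ), MDiffAt h x → MDiffAt (T% (h • Z)) x := fun h hh => hh.smul_section (dZ x)
  have dfVZ : MDiffAt (T% (f • mlieBracket I V Z)) x := (df x).smul_section ((hVZ x).mdifferentiableAt (by simp))
  have dfWZ : MDiffAt (T% (f • mlieBracket I W Z)) x := (df x).smul_section ((hWZ x).mdifferentiableAt (by simp))
  rw [mlieBracket_add_right (dhZ _ (dWf x)) dfWZ, mlieBracket_add_right (dhZ _ (dVf x)) dfVZ,
    mlieBracket_smul_right (dWf x) (dZ x), mlieBracket_smul_right (dVf x) (dZ x),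
    mlieBracket_smul_right (df x) ((hWZ x).mdifferentiableAt (by simp)),
    mlieBracket_smul_right (df x) ((hVZ x).mdifferentiableAt (by simp)),
    mlieBracket_smul_right (df x) (dZ x), J2] at J1
  have key : (mvfderiv I f x (mlieBracket I V W x) -
      (mvfderiv I (fun y ↦ mvfderiv I f y (W y)) x (V x)
        - mvfderiv I (fun y ↦ mvfderiv I f y (V y)) x (W x))) • Z x = 0 := by
    have := sub_eq_zero.mpr J1
    rw [← neg_eq_zero, ← this]
    module
  rcases smul_eq_zero.mp key with h | h
  · exact sub_eq_zero.mp h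
  · exact absurd h hx


/-- The cross-product structure equations, for a frame `e, f` adapted to `g`. -/
structure Framing (g : PseudoMetric I M) (e f : Fin 3 → Π x : M, TangentSpace I x) : Prop where
  e_smooth : ∀ i, CMDiff ∞ (T% (e i))
  f_smooth : ∀ i, CMDiff ∞ (T% (f i))
  gee : ∀ x i j, g.inner x (e i x) (e j x) = 0
  gff : ∀ x i j, g.inner x (f i x) (f j x) = 0
  gef : ∀ x i j, g.inner x (e i x) (f j x) = if i = j then 1 else 0
  expand : ∀ x (v : TangentSpace I x),
    v = ∑ i, (g.inner x v (f i x)) • e i x + ∑ i, (g.inner x v (e i x)) • f i x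
  bee : ∀ x i, mlieBracket I (e i) (e (i + 1)) x = (2 : ℝ) • e (i + 2) x
  bef : ∀ x i j, mlieBracket I (e i) (f j) x = 0
  bff : ∀ x i j, mlieBracket I (f i) (f j) x = 0

theorem Framing.e_ne_zero {g : PseudoMetric I M} {e f : Fin 3 → Π x : M, TangentSpace I x}
    (F : Framing g e f) (x : M) (i : Fin 3) : e i x ≠ 0 := by
  intro h
  have := F.gef x i i
  rw [h] at this
  simp at this

/-- smooth triples of functions rotating under the frame `e` vanish. -/
theorem Framing.rot_zero {g : PseudoMetric I M} {e f : Fin 3 → Π x : M, TangentSpace I x}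
    (F : Framing g e f) {u : Fin 3 → M → ℝ} (hu : ∀ i, ContMDiff I 𝓘(ℝ, ℝ) ∞ (u i))
    (h0 : ∀ x i, mvfderiv I (u i) x (e i x) = 0)
    (h1 : ∀ x i, mvfderiv I (u (i + 1)) x (e i x) = u (i + 2) x)
    (h2 : ∀ x i, mvfderiv I (u (i + 2)) x (e i x) = - u (i + 1) x) :
    ∀ i x, u i x = 0 := by
  have main : ∀ i x, u (i + 1) x = 0 := by
    intro i x
    have key := mvfderiv_mlieBracket (F.e_smooth i) (F.e_smooth (i + 1)) (F.e_smooth i) (hu i) x
      (F.e_ne_zero x i)
    rw [F.bee x i, map_smul] at key
    have a3 : (i + 1 + 2 : Fin 3) = i := by fin_cases i <;> rfl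
    have a4 : (i + 1 + 1 : Fin 3) = i + 2 := by fin_cases i <;> rfl
    have a5 : (i + 2 + 1 : Fin 3) = i := by fin_cases i <;> rfl
    have a6 : (i + 2 + 2 : Fin 3) = i + 1 := by fin_cases i <;> rfl
    have q1 : (fun y ↦ mvfderiv I (u i) y (e (i + 1) y)) = fun y ↦ - u (i + 2) y := by
      funext y
      have := h2 y (i + 1)
      rwa [a3, a4] at this
    have q2 : (fun y ↦ mvfderiv I (u i) y (e i y)) = fun y ↦ 0 := by
      funext y; exact h0 y i
    have q3 : mvfderiv I (u i) x (e (i + 2) x) = u (i + 1) x := by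
      have := h1 x (i + 2)
      rwa [a5, a6] at this
    have q4 : mvfderiv I (fun y ↦ - u (i + 2) y) x (e i x) = u (i + 1) x := by
      have : (fun y ↦ - u (i + 2) y) = - u (i + 2) := rfl
      rw [this, mvfderiv_neg]
      simp [h2 x i]
    rw [q1, q2, q3, q4, mvfderiv_const] at key
    simp at key
    linarith
  intro i x
  have := main (i + 2) x
  have a5 : (i + 2 + 1 : Fin 3) = i := by fin_cases i <;> rfl
  rwa [a5] at this


theorem IsLeviCivita.koszul {g : PseudoMetric I M}
    {cov : CovariantDerivative I E (TangentSpace I : M → Type _)} (h : IsLeviCivita g cov)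
    {X Y Z : Π x : M, TangentSpace I x}
    (x : M) (hX : MDiffAt (T% X) x) (hY : MDiffAt (T% Y) x) (hZ : MDiffAt (T% Z) x)
    (a b c : ℝ) (hXY : ∀ y, g.inner y (X y) (Y y) = a) (hYZ : ∀ y, g.inner y (Y y) (Z y) = b)
    (hXZ : ∀ y, g.inner y (X y) (Z y) = c) :
    2 * g.inner x (cov Y x (X x)) (Z x) = g.inner x (mlieBracket I X Y x) (Z x)
      - g.inner x (mlieBracket I X Z x) (Y x) - g.inner x (mlieBracket I Y Z x) (X x) := by
  have m1 := h.metric Y Z x hY hZ (X x)
  have m2 := h.metric X Z x hX hZ (Y x)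
  have m3 := h.metric X Y x hX hY (Z x)
  simp only [hXY, hYZ, hXZ, mvfderiv_const, zero_apply] at m1 m2 m3
  have t1 := h.torsion_free X Y x hX hY
  have t2 := h.torsion_free X Z x hX hZ
  have t3 := h.torsion_free Y Z x hY hZ
  rw [← t1, ← t2, ← t3]
  simp only [map_sub, sub_apply]
  have s1 := g.symm x (cov Z x (X x)) (Y x)
  have s2 := g.symm x (cov Z x (Y x)) (X x)
  have s3 := g.symm x (cov Y x (Z x)) (X x)
  linarith

theorem PseudoMetric.contMDiff_inner (g : PseudoMetric I M) {V W : Π x : M, TangentSpace I x}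
    (hV : CMDiff ∞ (T% V)) (hW : CMDiff ∞ (T% W)) :
    ContMDiff I 𝓘(ℝ, ℝ) ∞ (fun x ↦ g.inner x (V x) (W x)) := by
  intro x
  have : ContMDiffAt I (I.prod 𝓘(ℝ)) ∞
      (fun m ↦ TotalSpace.mk' ℝ (E := Bundle.Trivial M ℝ) m (g.inner m (V m) (W m))) x := by
    apply ContMDiffAt.clm_bundle_apply₂ (F₁ := E) (F₂ := E)
    · exact g.contMDiff x
    · exact hV x
    · exact hW x
  simp only [contMDiffAt_totalSpace] at this
  exact this.2

theorem PseudoMetric.mdifferentiableAt_inner (g : PseudoMetric I M)
    {V W : Π x : M, TangentSpace I x} {x : M}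
    (hV : MDiffAt (T% V) x) (hW : MDiffAt (T% W) x) :
    MDiffAt (fun x ↦ g.inner x (V x) (W x)) x := by
  have : MDifferentiableAt I (I.prod 𝓘(ℝ))
      (fun m ↦ TotalSpace.mk' ℝ (E := Bundle.Trivial M ℝ) m (g.inner m (V m) (W m))) x := by
    apply MDifferentiableAt.clm_bundle_apply₂ (F₁ := E) (F₂ := E)
    · exact (g.contMDiff x).mdifferentiableAt (by simp)
    · exact hV
    · exact hW
  simp only [mdifferentiableAt_totalSpace] at this
  exact this.2

theorem Framing.parallel_zero {g : PseudoMetric I M} {e f : Fin 3 → Π x : M, TangentSpace I x}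
    (F : Framing g e f) {cov : CovariantDerivative I E (TangentSpace I : M → Type _)}
    (h : IsLeviCivita g cov) {V : Π x : M, TangentSpace I x} (hV : CMDiff ∞ (T% V))
    (hpar : ∀ x, cov V x = 0) : ∀ x, V x = 0 := by
  have de : ∀ i x, MDiffAt (T% (e i)) x := fun i x => ((F.e_smooth i) x).mdifferentiableAt (by simp)
  have df : ∀ i x, MDiffAt (T% (f i)) x := fun i x => ((F.f_smooth i) x).mdifferentiableAt (by simp)
  have dV : ∀ x, MDiffAt (T% V) x := fun x => (hV x).mdifferentiableAt (by simp)
  have gfe : ∀ x i j, g.inner x (f i x) (e j x) = if j = i then 1 else 0 := by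
    intro x i j; rw [g.symm]; exact F.gef x j i
  have a3 : ∀ i : Fin 3, (i + 1 + 2 : Fin 3) = i := by decide
  have a4 : ∀ i : Fin 3, (i + 1 + 1 : Fin 3) = i + 2 := by decide
  have a5 : ∀ i : Fin 3, (i + 2 + 1 : Fin 3) = i := by decide
  have a6 : ∀ i : Fin 3, (i + 2 + 2 : Fin 3) = i + 1 := by decide
  -- Lie brackets of the frame
  have b0 : ∀ x i, mlieBracket I (e i) (e i) x = 0 := by intro x i; simp
  have b1 : ∀ x i, mlieBracket I (e i) (e (i + 1)) x = (2 : ℝ) • e (i + 2) x := F.bee
  have b2 : ∀ x i, mlieBracket I (e i) (e (i + 2)) x = -((2 : ℝ) • e (i + 1) x) := by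
    intro x i
    rw [mlieBracket_swap_apply]
    have := F.bee x (i + 2)
    rw [a5, a6] at this
    rw [this]
  have bfe : ∀ x i j, mlieBracket I (f i) (e j) x = 0 := by
    intro x i j
    rw [mlieBracket_swap_apply, F.bef, neg_zero]
  -- the coefficients of `V`
  set a : Fin 3 → M → ℝ := fun i x => g.inner x (V x) (f i x) with ha
  set b : Fin 3 → M → ℝ := fun i x => g.inner x (V x) (e i x) with hb
  have sa : ∀ i, ContMDiff I 𝓘(ℝ, ℝ) ∞ (a i) := by
    intro i
    exact g.contMDiff_inner hV (F.f_smooth i)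
  have sb : ∀ i, ContMDiff I 𝓘(ℝ, ℝ) ∞ (b i) := by
    intro i
    exact g.contMDiff_inner hV (F.e_smooth i)
  -- derivative of the coefficients
  have da : ∀ x i (v : TangentSpace I x),
      mvfderiv I (a i) x v = g.inner x (V x) (cov (f i) x v) := by
    intro x i v
    have := h.metric V (f i) x (dV x) (df i x) v
    rw [hpar x] at this
    simpa using this
  have db : ∀ x i (v : TangentSpace I x),
      mvfderiv I (b i) x v = g.inner x (V x) (cov (e i) x v) := by
    intro x i v
    have := h.metric V (e i) x (dV x) (de i x) v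
    rw [hpar x] at this
    simpa using this
  -- expansion of inner products with `V`
  have ex : ∀ x (w : TangentSpace I x), g.inner x (V x) w
      = ∑ j, a j x * g.inner x w (e j x) + ∑ j, b j x * g.inner x w (f j x) := by
    intro x w
    conv_lhs => rw [F.expand x (V x)]
    simp only [map_add, map_sum, map_smul, add_apply, sum_apply, smul_apply, smul_eq_mul, ha, hb]
    simp only [g.symm x (e _ x) w, g.symm x (f _ x) w]
  have sum3 : ∀ (i : Fin 3) (G : Fin 3 → ℝ), ∑ j, G j = G i + G (i + 1) + G (i + 2) := by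
    intro i G
    rw [Fin.sum_univ_three]
    fin_cases i
    · rfl
    · change G 0 + G 1 + G 2 = G 1 + G 2 + G 0
      ring
    · change G 0 + G 1 + G 2 = G 2 + G 0 + G 1
      ring
  have brk : ∀ x i k (c : Fin 3 → ℝ),
      ∑ j, c j * g.inner x (mlieBracket I (e i) (e j) x) (f k x)
        = 2 * c (i + 1) * (if i + 2 = k then 1 else 0)
          - 2 * c (i + 2) * (if i + 1 = k then 1 else 0) := by
    intro x i k c
    rw [sum3 i, b0, b1, b2]
    simp only [map_zero, zero_apply, map_smul, smul_apply, map_neg, neg_apply, smul_eq_mul, F.gef]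
    ring
  -- Koszul formula for the frame
  have K1 : ∀ x i k j, g.inner x (cov (f k) x (e i x)) (e j x)
      = - g.inner x (mlieBracket I (e i) (e j) x) (f k x) / 2 := by
    intro x i k j
    have := h.koszul x (de i x) (df k x) (de j x) (if i = k then 1 else 0)
      (if j = k then 1 else 0) 0 (fun y => F.gef y i k) (fun y => gfe y k j) (fun y => F.gee y i j)
    rw [F.bef, bfe] at this
    simp only [map_zero, zero_apply] at this
    linarith
  have K2 : ∀ x i k j, g.inner x (cov (f k) x (e i x)) (f j x) = 0 := by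
    intro x i k j
    have := h.koszul x (de i x) (df k x) (df j x) (if i = k then 1 else 0)
      0 (if i = j then 1 else 0) (fun y => F.gef y i k) (fun y => F.gff y k j)
      (fun y => F.gef y i j)
    rw [F.bef, F.bef, F.bff] at this
    simp only [map_zero, zero_apply] at this
    linarith
  have K3 : ∀ x i k j, g.inner x (cov (e k) x (e i x)) (f j x)
      = g.inner x (mlieBracket I (e i) (e k) x) (f j x) / 2 := by
    intro x i k j
    have := h.koszul x (de i x) (de k x) (df j x) 0 (if k = j then 1 else 0)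
      (if i = j then 1 else 0) (fun y => F.gee y i k) (fun y => F.gef y k j)
      (fun y => F.gef y i j)
    rw [F.bef, F.bef] at this
    simp only [map_zero, zero_apply] at this
    linarith
  have ea : ∀ x i k, mvfderiv I (a k) x (e i x)
      = a (i + 2) x * (if i + 1 = k then 1 else 0) - a (i + 1) x * (if i + 2 = k then 1 else 0) := by
    intro x i k
    rw [da, ex]
    simp only [K1, K2, mul_zero, Finset.sum_const_zero, add_zero]
    have := brk x i k (fun j => a j x)
    have h2 : ∑ j, a j x * (- g.inner x (mlieBracket I (e i) (e j) x) (f k x) / 2)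
        = - (∑ j, a j x * g.inner x (mlieBracket I (e i) (e j) x) (f k x)) / 2 := by
      rw [← Finset.sum_neg_distrib, Finset.sum_div]
      refine Finset.sum_congr rfl fun j _ => by ring
    rw [h2, this]
    ring
  have a_zero : ∀ i x, a i x = 0 := by
    refine F.rot_zero sa ?_ ?_ ?_
    · intro x i
      rw [ea]
      have h1 : ¬ (i + 1 = i) := by fin_cases i <;> decide
      have h2 : ¬ (i + 2 = i) := by fin_cases i <;> decide
      simp [h1, h2]
    · intro x i
      rw [ea]
      have h2 : ¬ (i + 2 = i + 1) := by fin_cases i <;> decide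
      simp [h2]
    · intro x i
      rw [ea]
      have h2 : ¬ (i + 1 = i + 2) := by fin_cases i <;> decide
      simp [h2]
  have eb : ∀ x i k, mvfderiv I (b k) x (e i x)
      = b (i + 2) x * (if i + 1 = k then 1 else 0) - b (i + 1) x * (if i + 2 = k then 1 else 0) := by
    intro x i k
    rw [db, ex]
    simp only [a_zero, K3, zero_mul, Finset.sum_const_zero, zero_add]
    have hk : k = i ∨ k = i + 1 ∨ k = i + 2 := by
      fin_cases i <;> fin_cases k <;> decide
    have n1 : ∀ i : Fin 3, ¬ (i + 1 = i) := by decide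
    have n2 : ∀ i : Fin 3, ¬ (i + 2 = i) := by decide
    have n3 : ∀ i : Fin 3, ¬ (i + 2 = i + 1) := by decide
    have n4 : ∀ i : Fin 3, ¬ (i + 1 = i + 2) := by decide
    rcases hk with rfl | rfl | rfl
    · simp [b0, n1, n2]
    · rw [b1]
      simp only [map_smul, smul_apply, smul_eq_mul, F.gef]
      rw [Finset.sum_eq_single (i + 2)]
      · simp [n3]
      · intro j _ hj
        simp [hj.symm]
      · simp
    · rw [b2]
      simp only [map_neg, neg_apply, map_smul, smul_apply, smul_eq_mul, F.gef]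
      rw [Finset.sum_eq_single (i + 1)]
      · simp [n4]
      · intro j _ hj
        simp [hj.symm]
      · simp
  have b_zero : ∀ i x, b i x = 0 := by
    refine F.rot_zero sb ?_ ?_ ?_
    · intro x i
      rw [eb]
      have h1 : ¬ (i + 1 = i) := by fin_cases i <;> decide
      have h2 : ¬ (i + 2 = i) := by fin_cases i <;> decide
      simp [h1, h2]
    · intro x i
      rw [eb]
      have h2 : ¬ (i + 2 = i + 1) := by fin_cases i <;> decide
      simp [h2]
    · intro x i
      rw [eb]
      have h2 : ¬ (i + 1 = i + 2) := by fin_cases i <;> decide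
      simp [h2]
  intro x
  rw [F.expand x (V x)]
  have h1 : ∀ i, g.inner x (V x) (f i x) = 0 := fun i => a_zero i x
  have h2 : ∀ i, g.inner x (V x) (e i x) = 0 := fun i => b_zero i x
  simp [h1, h2]


section Pullback

variable {E' : Type*} [NormedAddCommGroup E'] [NormedSpace ℝ E'] [CompleteSpace E']
  {H' : Type*} [TopologicalSpace H'] {I' : ModelWithCorners ℝ E' H'}
  {M' : Type*} [TopologicalSpace M'] [ChartedSpace H' M'] [IsManifold I' ∞ M']

theorem Framing.pullback {g : PseudoMetric I M} {e f : Fin 3 → Π x : M, TangentSpace I x}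
    (F : Framing g e f) {g' : PseudoMetric I' M'} {p : M' → M}
    (hp : IsLocalDiffeomorph I' I ∞ p)
    (hg : ∀ x u v, g'.inner x u v = g.inner (p x) (mfderiv I' I p x u) (mfderiv I' I p x v)) :
    Framing g' (fun i => mpullback I' I p (e i)) (fun i => mpullback I' I p (f i)) := by
  have hinv : ∀ x, (mfderiv I' I p x).IsInvertible := fun x =>
    ⟨hp.mfderivToContinuousLinearEquiv (by simp) x, rfl⟩
  have hpush : ∀ (V : Π x : M, TangentSpace I x) (x : M'),
      mfderiv I' I p x (mpullback I' I p V x) = V (p x) := by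
    intro V x
    rw [mpullback_apply]
    exact (hinv x).self_apply_inverse _
  have hm2 : minSmoothness ℝ 2 ≤ ∞ := by
    rw [minSmoothness_of_isRCLikeNormedField]; exact ENat.LEInfty.out
  have i3 : IsManifold I (minSmoothness ℝ 3) M := by
    rw [minSmoothness_of_isRCLikeNormedField]
    exact IsManifold.of_le (n := ∞) ENat.LEInfty.out
  have i3' : IsManifold I' (minSmoothness ℝ 3) M' := by
    rw [minSmoothness_of_isRCLikeNormedField]
    exact IsManifold.of_le (n := ∞) ENat.LEInfty.out
  have i2 : IsManifold I (minSmoothness ℝ 2) M := by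
    rw [minSmoothness_of_isRCLikeNormedField]
    exact IsManifold.of_le (n := ∞) ENat.LEInfty.out
  have i2' : IsManifold I' (minSmoothness ℝ 2) M' := by
    rw [minSmoothness_of_isRCLikeNormedField]
    exact IsManifold.of_le (n := ∞) ENat.LEInfty.out
  have de : ∀ i x, MDiffAt (T% (e i)) x := fun i x => ((F.e_smooth i) x).mdifferentiableAt (by simp)
  have df : ∀ i x, MDiffAt (T% (f i)) x := fun i x => ((F.f_smooth i) x).mdifferentiableAt (by simp)
  have hbr : ∀ (V W : Π x : M, TangentSpace I x) (x : M'), MDiffAt (T% V) (p x) →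
      MDiffAt (T% W) (p x) →
      mlieBracket I' (mpullback I' I p V) (mpullback I' I p W) x
        = mpullback I' I p (mlieBracket I V W) x := by
    intro V W x hV hW
    exact (mpullback_mlieBracket hV hW (hp.contMDiff x) hm2).symm
  refine ⟨fun i => ?_, fun i => ?_, ?_, ?_, ?_, ?_, ?_, ?_, ?_⟩
  · exact (F.e_smooth i).mpullback_vectorField hp.contMDiff hinv (by simp)
  · exact (F.f_smooth i).mpullback_vectorField hp.contMDiff hinv (by simp)
  · intro x i j; rw [hg, hpush, hpush, F.gee]
  · intro x i j; rw [hg, hpush, hpush, F.gff]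
  · intro x i j; rw [hg, hpush, hpush, F.gef]
  · intro x v
    apply (hp.mfderivToContinuousLinearEquiv (by simp) x).injective
    change mfderiv I' I p x v = mfderiv I' I p x _
    conv_lhs => rw [F.expand (p x) (mfderiv I' I p x v)]
    simp only [map_add, map_sum, map_smul, hg, hpush]
  · intro x i
    rw [hbr _ _ _ (de i _) (de (i + 1) _), mpullback_apply, F.bee, map_smul, mpullback_apply]
  · intro x i j
    rw [hbr _ _ _ (de i _) (df j _), mpullback_apply, F.bef, map_zero]
  · intro x i j
    rw [hbr _ _ _ (df i _) (df j _), mpullback_apply, F.bff, map_zero]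

end Pullback

end Lemmas

end Pool.Agent.Helper80.PR
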