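import Mathlib

open Bundle VectorField Set ContinuousLinearMap
open scoped Manifold ContDiff Topology

set_option autoImplicit false

namespace Pool.Agent.Helper80.PR.Smooth

variable {E : Type*} [NormedAddCommGroup E] [NormedSpace ℝ E]
  {H : Type*} [TopologicalSpace H] {I : ModelWithCorners ℝ E H}
  {M : Type*} [TopologicalSpace M] [ChartedSpace H M] [IsManifold I ∞ M]

/-- `x ↦ L x ∘ df_x` is a smooth one-form. -/
theorem contMDiff_clm_comp_mvfderiv {F : Type*} [NormedAddCommGroup F] [NormedSpace ℝ F]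
    {f : M → F} (hf : ContMDiff I 𝓘(ℝ, F) ∞ f) {L : M → F →L[ℝ] ℝ}
    (hL : ContMDiff I 𝓘(ℝ, F →L[ℝ] ℝ) ∞ L) :
    ContMDiff I (I.prod 𝓘(ℝ, E →L[ℝ] ℝ)) ∞
      (fun x ↦ TotalSpace.mk' (E →L[ℝ] ℝ) (E := fun x : M ↦ TangentSpace I x →L[ℝ] ℝ) x
        ((L x) ∘L mvfderiv I f x)) := by
  intro x₀
  rw [contMDiffAt_hom_bundle]
  refine ⟨contMDiffAt_id, ?_⟩
  have h1 := (hf x₀).mfderiv_const (m := ∞) (by simp)
  have h2 : ContMDiffAt I 𝓘(ℝ, E →L[ℝ] ℝ) ∞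
    (fun x => (L x) ∘L (inTangentCoordinates I 𝓘(ℝ, F) id f (mfderiv I 𝓘(ℝ, F) f) x₀ x)) x₀ :=
    ContMDiffAt.clm_comp (hL x₀) h1
  refine h2.congr_of_eventuallyEq (Filter.Eventually.of_forall fun x => ?_)
  ext v
  simp [inTangentCoordinates, inCoordinates, mvfderiv]
  rfl

/-- the tensor product `α ⊗ W` of a smooth one-form and a smooth section is smooth. -/
theorem contMDiff_smulRight {F₂ : Type*} [NormedAddCommGroup F₂] [NormedSpace ℝ F₂]
    {V : M → Type*} [∀ x, AddCommGroup (V x)] [∀ x, Module ℝ (V x)]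
    [TopologicalSpace (TotalSpace F₂ V)] [∀ x, TopologicalSpace (V x)] [FiberBundle F₂ V]
    [VectorBundle ℝ F₂ V] [∀ x, IsTopologicalAddGroup (V x)] [∀ x, ContinuousSMul ℝ (V x)]
    {α : Π x : M, TangentSpace I x →L[ℝ] ℝ}
    (hα : ContMDiff I (I.prod 𝓘(ℝ, E →L[ℝ] ℝ)) ∞
      (fun x ↦ TotalSpace.mk' (E →L[ℝ] ℝ) (E := fun x : M ↦ TangentSpace I x →L[ℝ] ℝ) x (α x)))
    {W : Π x : M, V x}
    (hW : ContMDiff I (I.prod 𝓘(ℝ, F₂)) ∞ (fun x ↦ TotalSpace.mk' F₂ (E := V) x (W x))) :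
    ContMDiff I (I.prod 𝓘(ℝ, E →L[ℝ] F₂)) ∞
      (fun x ↦ TotalSpace.mk' (E →L[ℝ] F₂) (E := fun x : M ↦ TangentSpace I x →L[ℝ] V x) x
        ((α x).smulRight (W x))) := by
  intro x₀
  have hα' := ((contMDiffAt_hom_bundle _).1 (hα x₀)).2
  have hW' := (contMDiffAt_section _).1 (hW x₀)
  rw [contMDiffAt_hom_bundle]
  refine ⟨contMDiffAt_id, ?_⟩
  have h2 := ContMDiffAt.clm_apply (ContMDiffAt.clm_apply
    (contMDiffAt_const (c := ContinuousLinearMap.smulRightL ℝ E F₂)) hα') hW'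
  refine h2.congr_of_eventuallyEq ?_
  filter_upwards [(trivializationAt F₂ V x₀).open_baseSet.mem_nhds
    (FiberBundle.mem_baseSet_trivializationAt' x₀)] with x hx
  ext v
  simp [inCoordinates, Trivialization.coe_linearMapAt_of_mem _ hx]

end Pool.Agent.Helper80.PR.Smooth
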