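import Pool.Agent.Helper80.PR.LC
import Pool.Agent.Helper80.PR.Smooth

open Bundle VectorField Set
open scoped Manifold ContDiff Topology

set_option autoImplicit false
set_option linter.unusedSectionVars false

namespace Pool.Agent.Helper80.PR

section Mk

variable {E : Type*} [NormedAddCommGroup E] [NormedSpace ℝ E]
  {H : Type*} [TopologicalSpace H] {I : ModelWithCorners ℝ E H}
  {M : Type*} [TopologicalSpace M] [ChartedSpace H M] [IsManifold I ∞ M]

/-- Data of a frame and its dual coframe. -/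
structure Coframing (A B : Fin 3 → Π x : M, TangentSpace I x →L[ℝ] ℝ)
    (e f : Fin 3 → Π x : M, TangentSpace I x) : Prop where
  A_smooth : ∀ i, ContMDiff I (I.prod 𝓘(ℝ, E →L[ℝ] ℝ)) ∞
    (fun x ↦ TotalSpace.mk' (E →L[ℝ] ℝ) (E := fun x : M ↦ TangentSpace I x →L[ℝ] ℝ) x (A i x))
  B_smooth : ∀ i, ContMDiff I (I.prod 𝓘(ℝ, E →L[ℝ] ℝ)) ∞
    (fun x ↦ TotalSpace.mk' (E →L[ℝ] ℝ) (E := fun x : M ↦ TangentSpace I x →L[ℝ] ℝ) x (B i x))
  e_smooth : ∀ i, CMDiff ∞ (T% (e i))
  f_smooth : ∀ i, CMDiff ∞ (T% (f i))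
  Ae : ∀ x i j, A i x (e j x) = if i = j then 1 else 0
  Af : ∀ x i j, A i x (f j x) = 0
  Be : ∀ x i j, B i x (e j x) = 0
  Bf : ∀ x i j, B i x (f j x) = if i = j then 1 else 0
  expand : ∀ x (v : TangentSpace I x), v = ∑ i, (A i x v) • e i x + ∑ i, (B i x v) • f i x
  bee : ∀ x i, mlieBracket I (e i) (e (i + 1)) x = (2 : ℝ) • e (i + 2) x
  bef : ∀ x i j, mlieBracket I (e i) (f j) x = 0
  bff : ∀ x i j, mlieBracket I (f i) (f j) x = 0

/-- bilinear form -/
noncomputable def bil (A B : Fin 3 → Π x : M, TangentSpace I x →L[ℝ] ℝ) (x : M) :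
    TangentSpace I x →L[ℝ] TangentSpace I x →L[ℝ] ℝ :=
  ∑ i, ((A i x).smulRight (B i x) + (B i x).smulRight (A i x))

theorem bil_apply (A B : Fin 3 → Π x : M, TangentSpace I x →L[ℝ] ℝ) (x : M)
    (v w : TangentSpace I x) : bil A B x v w = ∑ i, (A i x v * B i x w + B i x v * A i x w) := by
  simp [bil, add_apply]

/-- The metric. -/
noncomputable def mkMetric {A B : Fin 3 → Π x : M, TangentSpace I x →L[ℝ] ℝ}
    {e f : Fin 3 → Π x : M, TangentSpace I x} (C : Coframing A B e f) : PseudoMetric I M where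
  inner := bil A B
  symm := by
    intro x v w
    rw [bil_apply, bil_apply]
    exact Finset.sum_congr rfl fun i _ => by ring
  nondegenerate := by
    intro x v hv
    have h1 : ∀ i, B i x v = 0 := by
      intro i
      have := hv (e i x)
      simpa [bil_apply, C.Ae, C.Be] using this
    have h2 : ∀ i, A i x v = 0 := by
      intro i
      have := hv (f i x)
      simpa [bil_apply, C.Af, C.Bf] using this
    rw [C.expand x v]
    simp [h1, h2]
  contMDiff := by
    have h : ∀ i, ContMDiff I (I.prod 𝓘(ℝ, E →L[ℝ] E →L[ℝ] ℝ)) ∞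
      (fun x ↦ TotalSpace.mk' (E →L[ℝ] E →L[ℝ] ℝ)
        (E := fun x : M ↦ TangentSpace I x →L[ℝ] TangentSpace I x →L[ℝ] ℝ) x
          ((A i x).smulRight (B i x) + (B i x).smulRight (A i x))) := by
      intro i
      have h1 := Pool.Agent.Helper80.PR.Smooth.contMDiff_smulRight (C.A_smooth i) (C.B_smooth i)
      have h2 := Pool.Agent.Helper80.PR.Smooth.contMDiff_smulRight (C.B_smooth i) (C.A_smooth i)
      exact h1.add_section h2
    exact ContMDiff.sum_section (fun i _ => h i)

theorem mkFraming {A B : Fin 3 → Π x : M, TangentSpace I x →L[ℝ] ℝ}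
    {e f : Fin 3 → Π x : M, TangentSpace I x} (C : Coframing A B e f) :
    Framing (mkMetric C) e f where
  e_smooth := C.e_smooth
  f_smooth := C.f_smooth
  gee := by
    intro x i j
    change bil A B x _ _ = 0
    simp [bil_apply, C.Ae, C.Be]
  gff := by
    intro x i j
    change bil A B x _ _ = 0
    simp [bil_apply, C.Af, C.Bf]
  gef := by
    intro x i j
    change bil A B x _ _ = _
    simp [bil_apply, C.Af, C.Bf, C.Be, C.Ae, eq_comm]
  expand := by
    intro x v
    have h1 : ∀ i, bil A B x v (f i x) = A i x v := by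
      intro i; simp [bil_apply, C.Af, C.Bf]
    have h2 : ∀ i, bil A B x v (e i x) = B i x v := by
      intro i; simp [bil_apply, C.Ae, C.Be]
    change v = ∑ i, (bil A B x v (f i x)) • e i x + ∑ i, (bil A B x v (e i x)) • f i x
    simp only [h1, h2]
    exact C.expand x v
  bee := C.bee
  bef := C.bef
  bff := C.bff

/-- smoothness of the nilpotent endomorphism field -/
theorem nilEnd_smooth [CompleteSpace E] {A B : Fin 3 → Π x : M, TangentSpace I x →L[ℝ] ℝ}
    {e f : Fin 3 → Π x : M, TangentSpace I x} (C : Coframing A B e f) :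
    ContMDiff I (I.prod 𝓘(ℝ, E →L[ℝ] E)) ∞
      (fun x ↦ TotalSpace.mk' (E →L[ℝ] E)
        (E := fun x : M ↦ TangentSpace I x →L[ℝ] TangentSpace I x) x
          (nilEnd (mkMetric C) f x)) := by
  have h0 : ∀ x, nilEnd (mkMetric C) f x = ∑ i, (A i x).smulRight (f i x) := by
    intro x
    ext v
    have h1 : ∀ i, (mkMetric C).inner x v (f i x) = A i x v := by
      intro i
      change bil A B x v (f i x) = A i x v
      simp [bil_apply, C.Af, C.Bf]
    rw [nilEnd_apply]
    simp [h1]
  simp only [h0]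
  refine ContMDiff.sum_section (fun i _ => ?_)
  exact Pool.Agent.Helper80.PR.Smooth.contMDiff_smulRight (C.A_smooth i) (C.f_smooth i)

end Mk

end Pool.Agent.Helper80.PR
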