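import Pool.Agent.Helper80.PR.Inv
import Pool.Agent.Helper80.PR.Mk

open Bundle VectorField Set Metric Module
open scoped Manifold ContDiff Topology Quaternion

set_option autoImplicit false

namespace Pool.Agent.Helper80.PR.Group

instance factQ : Fact (finrank ℝ ℍ[ℝ] = 3 + 1) := ⟨by rw [Quaternion.finrank_eq_four]⟩

attribute [local instance] finrank_real_complex_fact'

/-- The unit quaternions, with the standard smooth structure of the unit sphere `S³`. -/
abbrev S3 : Type := sphere (0 : ℍ[ℝ]) 1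

/-- quaternion conjugation as a continuous linear map -/
noncomputable def starCLM : ℍ[ℝ] →L[ℝ] ℍ[ℝ] :=
  LinearMap.toContinuousLinearMap
    { toFun := star
      map_add' := star_add
      map_smul' := fun c q => by ext <;> simp }

instance : LieGroup (𝓡 3) ω S3 where
  contMDiff_mul := by
    apply ContMDiff.codRestrict_sphere
    let c : S3 → ℍ[ℝ] := (↑)
    have h₂ : ContMDiff (𝓘(ℝ, ℍ[ℝ]).prod 𝓘(ℝ, ℍ[ℝ])) 𝓘(ℝ, ℍ[ℝ]) ω fun z : ℍ[ℝ] × ℍ[ℝ] => z.fst * z.snd := by
      rw [contMDiff_iff]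
      exact ⟨continuous_mul, fun x y => contDiff_mul.contDiffOn⟩
    suffices h₁ : ContMDiff _ _ _ (Prod.map c c) from
      h₂.comp h₁
    apply ContMDiff.prodMap <;> exact contMDiff_coe_sphere
  contMDiff_inv := by
    apply ContMDiff.codRestrict_sphere
    have h : ∀ q : S3, ((q : ℍ[ℝ]))⁻¹ = starCLM (q : ℍ[ℝ]) := by
      intro q
      have hq : ‖(q : ℍ[ℝ])‖ = 1 := by simp
      rw [Quaternion.inv_def, Quaternion.normSq_eq_norm_mul_self, hq]
      simp [starCLM]
    simp only [unitSphere.coe_inv, h]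
    exact starCLM.contDiff.contMDiff.comp contMDiff_coe_sphere

/-- The compact Lie group `S³ × S¹ × S¹ × S¹`. -/
abbrev G : Type := S3 × (Circle × Circle × Circle)

/-- its model with corners -/
noncomputable abbrev J := (𝓡 3).prod ((𝓡 1).prod ((𝓡 1).prod (𝓡 1)))

noncomputable example : LieGroup J ω G := inferInstance
noncomputable example : CompactSpace G := inferInstance
noncomputable example : T2Space G := inferInstance
noncomputable example : IsManifold J ∞ G := inferInstance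
noncomputable example : J.Boundaryless := inferInstance

instance : ConnectedSpace S3 := by
  apply isConnected_iff_connectedSpace.mp
  apply isConnected_sphere _ _ zero_le_one
  rw [Quaternion.rank_eq_four]
  norm_num

noncomputable example : ConnectedSpace G := inferInstance

/-- quaternion coordinate -/
def P (x : G) : ℍ[ℝ] := (x.1 : ℍ[ℝ])
/-- circle coordinates -/
def Z0 (x : G) : ℂ := (x.2.1 : ℂ)
/-- circle coordinates -/
def Z1 (x : G) : ℂ := (x.2.2.1 : ℂ)
/-- circle coordinates -/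
def Z2 (x : G) : ℂ := (x.2.2.2 : ℂ)
/-- circle coordinates -/
def Z : Fin 3 → G → ℂ := ![Z0, Z1, Z2]

/-- the inclusion of the circle -/
def cc (z : Circle) : ℂ := (z : ℂ)

theorem cc_smooth {m : ℕ∞ω} : ContMDiff (𝓡 1) 𝓘(ℝ, ℂ) m cc := by
  exact contMDiff_coe_sphere (E := ℂ) (n := 1)

/-- the inclusion of the sphere -/
def cs (q : S3) : ℍ[ℝ] := (q : ℍ[ℝ])

theorem cs_smooth {m : ℕ∞ω} : ContMDiff (𝓡 3) 𝓘(ℝ, ℍ[ℝ]) m cs := by
  exact contMDiff_coe_sphere (E := ℍ[ℝ]) (n := 3)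

theorem P_smooth {m : ℕ∞ω} : ContMDiff J 𝓘(ℝ, ℍ[ℝ]) m P :=
  cs_smooth.comp contMDiff_fst

theorem Z0_smooth {m : ℕ∞ω} : ContMDiff J 𝓘(ℝ, ℂ) m Z0 :=
  cc_smooth.comp (contMDiff_fst.comp contMDiff_snd)

theorem Z1_smooth {m : ℕ∞ω} : ContMDiff J 𝓘(ℝ, ℂ) m Z1 :=
  cc_smooth.comp (contMDiff_fst.comp (contMDiff_snd.comp contMDiff_snd))

theorem Z2_smooth {m : ℕ∞ω} : ContMDiff J 𝓘(ℝ, ℂ) m Z2 :=
  cc_smooth.comp (contMDiff_snd.comp (contMDiff_snd.comp contMDiff_snd))

theorem dP (x : G) (v : TangentSpace J x) :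
    mvfderiv J P x v = mvfderiv (𝓡 3) cs x.1 v.1 := by
  have h := mfderiv_comp_apply (I := J) (I' := 𝓡 3) (I'' := 𝓘(ℝ, ℍ[ℝ])) x (f := Prod.fst)
    (g := cs) ((cs_smooth (m := 1) x.1).mdifferentiableAt (by simp))
    mdifferentiableAt_fst v
  rw [mfderiv_fst] at h
  exact h

theorem dZ0 (x : G) (v : TangentSpace J x) :
    mvfderiv J Z0 x v = mvfderiv (𝓡 1) cc x.2.1 v.2.1 := by
  have h := mfderiv_comp_apply (I := J) (I' := (𝓡 1).prod ((𝓡 1).prod (𝓡 1)))
    (I'' := 𝓘(ℝ, ℂ)) x (f := Prod.snd)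
    (g := cc ∘ Prod.fst)
    (((cc_smooth (m := 1)).comp contMDiff_fst x.2).mdifferentiableAt (by simp))
    mdifferentiableAt_snd v
  have h' := mfderiv_comp_apply (I := (𝓡 1).prod ((𝓡 1).prod (𝓡 1))) (I' := 𝓡 1)
    (I'' := 𝓘(ℝ, ℂ)) x.2 (f := Prod.fst)
    (g := cc)
    (((cc_smooth (m := 1)) x.2.1).mdifferentiableAt (by simp))
    mdifferentiableAt_fst v.2
  rw [mfderiv_snd] at h
  rw [mfderiv_fst] at h'
  exact h.trans h'

theorem dZ1 (x : G) (v : TangentSpace J x) :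
    mvfderiv J Z1 x v = mvfderiv (𝓡 1) cc x.2.2.1 v.2.2.1 := by
  have h := mfderiv_comp_apply (I := J) (I' := (𝓡 1).prod ((𝓡 1).prod (𝓡 1)))
    (I'' := 𝓘(ℝ, ℂ)) x (f := Prod.snd)
    (g := cc ∘ (Prod.fst ∘ Prod.snd))
    (((cc_smooth (m := 1)).comp (contMDiff_fst.comp contMDiff_snd) x.2).mdifferentiableAt (by simp))
    mdifferentiableAt_snd v
  have h' := mfderiv_comp_apply (I := (𝓡 1).prod ((𝓡 1).prod (𝓡 1))) (I' := (𝓡 1).prod (𝓡 1))
    (I'' := 𝓘(ℝ, ℂ)) x.2 (f := Prod.snd)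
    (g := cc ∘ Prod.fst)
    (((cc_smooth (m := 1)).comp contMDiff_fst x.2.2).mdifferentiableAt (by simp))
    mdifferentiableAt_snd v.2
  have h'' := mfderiv_comp_apply (I := (𝓡 1).prod (𝓡 1)) (I' := 𝓡 1)
    (I'' := 𝓘(ℝ, ℂ)) x.2.2 (f := Prod.fst)
    (g := cc)
    (((cc_smooth (m := 1)) x.2.2.1).mdifferentiableAt (by simp))
    mdifferentiableAt_fst v.2.2
  rw [mfderiv_snd] at h
  rw [mfderiv_snd] at h'
  rw [mfderiv_fst] at h''
  exact (h.trans h').trans h''

theorem dZ2 (x : G) (v : TangentSpace J x) :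
    mvfderiv J Z2 x v = mvfderiv (𝓡 1) cc x.2.2.2 v.2.2.2 := by
  have h := mfderiv_comp_apply (I := J) (I' := (𝓡 1).prod ((𝓡 1).prod (𝓡 1)))
    (I'' := 𝓘(ℝ, ℂ)) x (f := Prod.snd)
    (g := cc ∘ (Prod.snd ∘ Prod.snd))
    (((cc_smooth (m := 1)).comp (contMDiff_snd.comp contMDiff_snd) x.2).mdifferentiableAt (by simp))
    mdifferentiableAt_snd v
  have h' := mfderiv_comp_apply (I := (𝓡 1).prod ((𝓡 1).prod (𝓡 1))) (I' := (𝓡 1).prod (𝓡 1))
    (I'' := 𝓘(ℝ, ℂ)) x.2 (f := Prod.snd)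
    (g := cc ∘ Prod.snd)
    (((cc_smooth (m := 1)).comp contMDiff_snd x.2.2).mdifferentiableAt (by simp))
    mdifferentiableAt_snd v.2
  have h'' := mfderiv_comp_apply (I := (𝓡 1).prod (𝓡 1)) (I' := 𝓡 1)
    (I'' := 𝓘(ℝ, ℂ)) x.2.2 (f := Prod.snd)
    (g := cc)
    (((cc_smooth (m := 1)) x.2.2.2).mdifferentiableAt (by simp))
    mdifferentiableAt_snd v.2.2
  rw [mfderiv_snd] at h
  rw [mfderiv_snd] at h'
  rw [mfderiv_snd] at h''
  exact (h.trans h').trans h''

theorem inj_cs (q : S3) : Function.Injective (mvfderiv (𝓡 3) cs q) :=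
  injective_mvfderiv_subtypeVal_sphere (E := ℍ[ℝ]) (n := 3) q

theorem inj_cc (z : Circle) : Function.Injective (mvfderiv (𝓡 1) cc z) :=
  injective_mvfderiv_subtypeVal_sphere (E := ℂ) (n := 1) z

theorem range_cs (q : S3) : (mvfderiv (𝓡 3) cs q).range = (ℝ ∙ (q : ℍ[ℝ]))ᗮ :=
  range_mvfderiv_subtypeVal (E := ℍ[ℝ]) (n := 3) q

theorem range_cc (z : Circle) : (mvfderiv (𝓡 1) cc z).range = (ℝ ∙ (z : ℂ))ᗮ :=
  range_mvfderiv_subtypeVal (E := ℂ) (n := 1) z

theorem exists_cs {y : ℍ[ℝ]} (hy : inner ℝ (1 : ℍ[ℝ]) y = 0) :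
    ∃ w : TangentSpace (𝓡 3) (1 : S3), mvfderiv (𝓡 3) cs 1 w = y := by
  have : y ∈ (mvfderiv (𝓡 3) cs 1).range := by
    rw [range_cs, Submodule.mem_orthogonal_singleton_iff_inner_right]
    exact hy
  exact this

theorem exists_cc {y : ℂ} (hy : inner ℝ (1 : ℂ) y = 0) :
    ∃ w : TangentSpace (𝓡 1) (1 : Circle), mvfderiv (𝓡 1) cc 1 w = y := by
  have : y ∈ (mvfderiv (𝓡 1) cc 1).range := by
    rw [range_cc, Submodule.mem_orthogonal_singleton_iff_inner_right]
    exact hy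
  exact this

theorem orth_cs (q : S3) (w : TangentSpace (𝓡 3) q) :
    inner ℝ (q : ℍ[ℝ]) (mvfderiv (𝓡 3) cs q w) = 0 := by
  have : mvfderiv (𝓡 3) cs q w ∈ (mvfderiv (𝓡 3) cs q).range := ⟨w, rfl⟩
  rw [range_cs, Submodule.mem_orthogonal_singleton_iff_inner_right] at this
  exact this

theorem orth_cc (q : Circle) (w : TangentSpace (𝓡 1) q) :
    inner ℝ (q : ℂ) (mvfderiv (𝓡 1) cc q w) = 0 := by
  have : mvfderiv (𝓡 1) cc q w ∈ (mvfderiv (𝓡 1) cc q).range := ⟨w, rfl⟩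
  rw [range_cc, Submodule.mem_orthogonal_singleton_iff_inner_right] at this
  exact this

/-- the imaginary units -/
noncomputable def u : Fin 3 → ℍ[ℝ] := ![⟨0, 1, 0, 0⟩, ⟨0, 0, 1, 0⟩, ⟨0, 0, 0, 1⟩]

theorem inner_q (a b : ℍ[ℝ]) :
    inner ℝ a b = a.re * b.re + a.imI * b.imI + a.imJ * b.imJ + a.imK * b.imK := by
  rw [Quaternion.inner_def]
  simp

theorem u_re (i : Fin 3) : (u i).re = 0 := by fin_cases i <;> rfl
theorem u_imI (i : Fin 3) : (u i).imI = if i = 0 then 1 else 0 := by fin_cases i <;> rfl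
theorem u_imJ (i : Fin 3) : (u i).imJ = if i = 1 then 1 else 0 := by fin_cases i <;> rfl
theorem u_imK (i : Fin 3) : (u i).imK = if i = 2 then 1 else 0 := by fin_cases i <;> rfl

theorem inner_one_u (i : Fin 3) : inner ℝ (1 : ℍ[ℝ]) (u i) = 0 := by
  rw [inner_q, u_re]
  simp

theorem u_comm (i : Fin 3) : u i * u (i + 1) - u (i + 1) * u i = (2 : ℝ) • u (i + 2) := by
  apply Quaternion.ext
  all_goals
    simp only [Quaternion.re_sub, Quaternion.imI_sub, Quaternion.imJ_sub, Quaternion.imK_sub,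
      Quaternion.re_mul, Quaternion.imI_mul, Quaternion.imJ_mul, Quaternion.imK_mul,
      Quaternion.re_smul, Quaternion.imI_smul, Quaternion.imJ_smul, Quaternion.imK_smul,
      u_re, u_imI, u_imJ, u_imK, smul_eq_mul]
    fin_cases i <;> simp <;> norm_num

theorem inner_u (i j : Fin 3) : inner ℝ (u i) (u j) = if i = j then (1 : ℝ) else 0 := by
  rw [inner_q, u_re, u_re, u_imI, u_imI, u_imJ, u_imJ, u_imK, u_imK]
  fin_cases i <;> fin_cases j <;> simp

theorem Z_smooth {m : ℕ∞ω} (i : Fin 3) : ContMDiff J 𝓘(ℝ, ℂ) m (Z i) := by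
  fin_cases i
  · exact Z0_smooth
  · exact Z1_smooth
  · exact Z2_smooth

theorem P_mul (x y : G) : P (x * y) = P x * P y := rfl

theorem Z_mul (i : Fin 3) (x y : G) : Z i (x * y) = Z i x * Z i y := by
  fin_cases i <;> rfl

/-- joint injectivity of the differentials -/
theorem joint_inj (x : G) (v : TangentSpace J x) (h0 : mvfderiv J P x v = 0)
    (h : ∀ i, mvfderiv J (Z i) x v = 0) : v = 0 := by
  have h1 : v.1 = 0 := by
    apply inj_cs x.1
    exact ((dP x v).symm.trans h0).trans (map_zero (mvfderiv (𝓡 3) cs x.1)).symm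
  have h2 : v.2.1 = 0 := by
    apply inj_cc x.2.1
    exact ((dZ0 x v).symm.trans (h 0)).trans (map_zero (mvfderiv (𝓡 1) cc x.2.1)).symm
  have h3 : v.2.2.1 = 0 := by
    apply inj_cc x.2.2.1
    exact ((dZ1 x v).symm.trans (h 1)).trans (map_zero (mvfderiv (𝓡 1) cc x.2.2.1)).symm
  have h4 : v.2.2.2 = 0 := by
    apply inj_cc x.2.2.2
    exact ((dZ2 x v).symm.trans (h 2)).trans (map_zero (mvfderiv (𝓡 1) cc x.2.2.2)).symm
  exact Prod.ext h1 (Prod.ext h2 (Prod.ext h3 h4))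

/-- derivative of a continuous linear map after a smooth map -/
theorem mvfderiv_clm_comp {E : Type*} [NormedAddCommGroup E] [NormedSpace ℝ E]
    {H : Type*} [TopologicalSpace H] {I : ModelWithCorners ℝ E H}
    {M : Type*} [TopologicalSpace M] [ChartedSpace H M]
    {A B : Type*} [NormedAddCommGroup A] [NormedSpace ℝ A] [NormedAddCommGroup B] [NormedSpace ℝ B]
    {f : M → A} {x : M} (hf : MDifferentiableAt I 𝓘(ℝ, A) f x) (L : A →L[ℝ] B)
    (v : TangentSpace I x) :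
    mvfderiv I (fun y => L (f y)) x v = L (mvfderiv I f x v) := by
  have h3 : mfderiv I 𝓘(ℝ, B) (L ∘ f) x v
      = mfderiv 𝓘(ℝ, A) 𝓘(ℝ, B) L (f x) (mfderiv I 𝓘(ℝ, A) f x v) :=
    mfderiv_comp_apply x L.mdifferentiableAt hf v
  rw [ContinuousLinearMap.mfderiv_eq] at h3
  exact h3

/-- brackets of fields acting by right multiplication in a normed algebra -/
theorem mvfderiv_bracket_mul {E : Type*} [NormedAddCommGroup E] [NormedSpace ℝ E] [CompleteSpace E]
    {H : Type*} [TopologicalSpace H] {I : ModelWithCorners ℝ E H}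
    {M : Type*} [TopologicalSpace M] [ChartedSpace H M] [IsManifold I ∞ M]
    {A : Type*} [NormedRing A] [NormedAlgebra ℝ A] {f : M → A} (hf : ContMDiff I 𝓘(ℝ, A) ∞ f)
    {V W Z : Π x : M, TangentSpace I x}
    (hV : CMDiff ∞ (T% V)) (hW : CMDiff ∞ (T% W)) (hZ : CMDiff ∞ (T% Z)) (x : M) (hx : Z x ≠ 0)
    {a b : A} (ha : ∀ y, mvfderiv I f y (V y) = f y * a) (hb : ∀ y, mvfderiv I f y (W y) = f y * b) :
    mvfderiv I f x (mlieBracket I V W x) = f x * (a * b - b * a) := by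
  have df : ∀ y, MDifferentiableAt I 𝓘(ℝ, A) f y := fun y => (hf y).mdifferentiableAt (by simp)
  have key : ∀ L : A →L[ℝ] ℝ,
      L (mvfderiv I f x (mlieBracket I V W x)) = L (f x * (a * b - b * a)) := by
    intro L
    have hLf : ContMDiff I 𝓘(ℝ, ℝ) ∞ (fun y => L (f y)) := L.contMDiff.comp hf
    have h := Pool.Agent.Helper80.PR.mvfderiv_mlieBracket hV hW hZ hLf x hx
    rw [mvfderiv_clm_comp (df x)] at h
    rw [h]
    have e1 : (fun y ↦ mvfderiv I (fun y => L (f y)) y (W y))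
        = fun y => (L ∘L (ContinuousLinearMap.mul ℝ A).flip b) (f y) := by
      funext y
      rw [mvfderiv_clm_comp (df y), hb]
      simp
    have e2 : (fun y ↦ mvfderiv I (fun y => L (f y)) y (V y))
        = fun y => (L ∘L (ContinuousLinearMap.mul ℝ A).flip a) (f y) := by
      funext y
      rw [mvfderiv_clm_comp (df y), ha]
      simp
    rw [e1, e2, mvfderiv_clm_comp (df x), mvfderiv_clm_comp (df x), ha, hb]
    simp [mul_sub, mul_assoc]
  by_contra hne
  obtain ⟨L, hL⟩ := SeparatingDual.exists_ne_zero (R := ℝ) (sub_ne_zero.mpr hne)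
  apply hL
  rw [map_sub, key L, sub_self]

/-- Lie algebra vectors -/
noncomputable def wS (i : Fin 3) : TangentSpace (𝓡 3) (1 : S3) :=
  Classical.choose (exists_cs (inner_one_u i))

theorem wS_spec (i : Fin 3) : mvfderiv (𝓡 3) cs 1 (wS i) = u i :=
  Classical.choose_spec (exists_cs (inner_one_u i))

theorem inner_one_I : inner ℝ (1 : ℂ) Complex.I = 0 := by
  simp [Complex.inner]

/-- Lie algebra vectors -/
noncomputable def wC : TangentSpace (𝓡 1) (1 : Circle) :=
  Classical.choose (exists_cc inner_one_I)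

theorem wC_spec : mvfderiv (𝓡 1) cc 1 wC = Complex.I :=
  Classical.choose_spec (exists_cc inner_one_I)

/-- Lie algebra vectors -/
noncomputable def a (i : Fin 3) : GroupLieAlgebra J G := (wS i, (0, (0, 0)))

/-- Lie algebra vectors -/
noncomputable def b : Fin 3 → GroupLieAlgebra J G :=
  ![(0, (wC, (0, 0))), (0, (0, (wC, 0))), (0, (0, (0, wC)))]

theorem dP_a (i : Fin 3) : mvfderiv J P 1 (a i) = u i :=
  (dP 1 (a i)).trans (wS_spec i)

theorem dZ_a (k i : Fin 3) : mvfderiv J (Z k) 1 (a i) = 0 := by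
  fin_cases k
  · exact (dZ0 1 (a i)).trans (map_zero (mvfderiv (𝓡 1) cc 1))
  · exact (dZ1 1 (a i)).trans (map_zero (mvfderiv (𝓡 1) cc 1))
  · exact (dZ2 1 (a i)).trans (map_zero (mvfderiv (𝓡 1) cc 1))

theorem dP_b (i : Fin 3) : mvfderiv J P 1 (b i) = 0 := by
  fin_cases i <;> exact (dP 1 _).trans (map_zero (mvfderiv (𝓡 3) cs 1))

theorem dZ_b (k i : Fin 3) : mvfderiv J (Z k) 1 (b i) = if k = i then Complex.I else 0 := by
  fin_cases k
  · fin_cases i
    · exact (dZ0 1 _).trans wC_spec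
    · exact (dZ0 1 _).trans (map_zero (mvfderiv (𝓡 1) cc 1))
    · exact (dZ0 1 _).trans (map_zero (mvfderiv (𝓡 1) cc 1))
  · fin_cases i
    · exact (dZ1 1 _).trans (map_zero (mvfderiv (𝓡 1) cc 1))
    · exact (dZ1 1 _).trans wC_spec
    · exact (dZ1 1 _).trans (map_zero (mvfderiv (𝓡 1) cc 1))
  · fin_cases i
    · exact (dZ2 1 _).trans (map_zero (mvfderiv (𝓡 1) cc 1))
    · exact (dZ2 1 _).trans (map_zero (mvfderiv (𝓡 1) cc 1))
    · exact (dZ2 1 _).trans wC_spec

/-- the frame -/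
noncomputable def e (i : Fin 3) (x : G) : TangentSpace J x := mulInvariantVectorField (a i) x

/-- the frame -/
noncomputable def f (i : Fin 3) (x : G) : TangentSpace J x := mulInvariantVectorField (b i) x

theorem e_smooth (i : Fin 3) :
    ContMDiff J J.tangent ∞ (fun x : G => (⟨x, e i x⟩ : TangentBundle J G)) :=
  Pool.Agent.Helper80.PR.Inv.contMDiff_mulInvariantVectorField_top (a i)

theorem f_smooth (i : Fin 3) :
    ContMDiff J J.tangent ∞ (fun x : G => (⟨x, f i x⟩ : TangentBundle J G)) :=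
  Pool.Agent.Helper80.PR.Inv.contMDiff_mulInvariantVectorField_top (b i)

theorem dP_e (i : Fin 3) (x : G) : mvfderiv J P x (e i x) = P x * u i := by
  rw [e, Pool.Agent.Helper80.PR.Inv.mvfderiv_mulInvariant P_smooth P_mul, dP_a]

theorem dP_f (i : Fin 3) (x : G) : mvfderiv J P x (f i x) = P x * 0 := by
  rw [f, Pool.Agent.Helper80.PR.Inv.mvfderiv_mulInvariant P_smooth P_mul, dP_b]

theorem dZ_e (k i : Fin 3) (x : G) : mvfderiv J (Z k) x (e i x) = Z k x * 0 := by
  rw [e, Pool.Agent.Helper80.PR.Inv.mvfderiv_mulInvariant (Z_smooth k) (Z_mul k), dZ_a]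

theorem dZ_f (k i : Fin 3) (x : G) :
    mvfderiv J (Z k) x (f i x) = Z k x * (if k = i then Complex.I else 0) := by
  rw [f, Pool.Agent.Helper80.PR.Inv.mvfderiv_mulInvariant (Z_smooth k) (Z_mul k), dZ_b]

/-- model vector space -/
abbrev EE : Type := EuclideanSpace ℝ (Fin 3) ×
  (EuclideanSpace ℝ (Fin 1) × EuclideanSpace ℝ (Fin 1) × EuclideanSpace ℝ (Fin 1))

/-- coframe -/
noncomputable def A (i : Fin 3) (x : G) : TangentSpace J x →L[ℝ] ℝ :=
  (innerSL ℝ (P x * u i)) ∘L mvfderiv J P x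

/-- coframe -/
noncomputable def B (i : Fin 3) (x : G) : TangentSpace J x →L[ℝ] ℝ :=
  (innerSL ℝ (Z i x * Complex.I)) ∘L mvfderiv J (Z i) x

theorem A_smooth (i : Fin 3) : ContMDiff J (J.prod 𝓘(ℝ, EE →L[ℝ] ℝ)) ∞
    (fun x ↦ TotalSpace.mk' (EE →L[ℝ] ℝ) (E := fun x : G ↦ TangentSpace J x →L[ℝ] ℝ) x (A i x)) := by
  apply Pool.Agent.Helper80.PR.Smooth.contMDiff_clm_comp_mvfderiv P_smooth
  have h1 : ContMDiff J 𝓘(ℝ, ℍ[ℝ]) ∞ (fun x => P x * u i) :=
    ((ContinuousLinearMap.mul ℝ ℍ[ℝ]).flip (u i)).contMDiff.comp P_smooth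
  exact (innerSL ℝ (E := ℍ[ℝ])).contMDiff.comp h1

theorem B_smooth (i : Fin 3) : ContMDiff J (J.prod 𝓘(ℝ, EE →L[ℝ] ℝ)) ∞
    (fun x ↦ TotalSpace.mk' (EE →L[ℝ] ℝ) (E := fun x : G ↦ TangentSpace J x →L[ℝ] ℝ) x (B i x)) := by
  apply Pool.Agent.Helper80.PR.Smooth.contMDiff_clm_comp_mvfderiv (Z_smooth i)
  have h1 : ContMDiff J 𝓘(ℝ, ℂ) ∞ (fun x => Z i x * Complex.I) :=
    ((ContinuousLinearMap.mul ℝ ℂ).flip (Complex.I)).contMDiff.comp (Z_smooth i)
  exact (innerSL ℝ (E := ℂ)).contMDiff.comp h1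

theorem norm_P (x : G) : ‖P x‖ = 1 := by simp [P]

theorem norm_Z (i : Fin 3) (x : G) : ‖Z i x‖ = 1 := by
  fin_cases i
  · exact Circle.norm_coe x.2.1
  · exact Circle.norm_coe x.2.2.1
  · exact Circle.norm_coe x.2.2.2

theorem normsq_q (p : ℍ[ℝ]) (hp : ‖p‖ = 1) :
    p.re * p.re + p.imI * p.imI + p.imJ * p.imJ + p.imK * p.imK = 1 := by
  rw [← inner_q, real_inner_self_eq_norm_sq, hp, one_pow]

theorem inner_c (a b : ℂ) : inner ℝ a b = a.re * b.re + a.im * b.im := by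
  rw [Complex.inner]
  simp
  ring

theorem normsq_c (p : ℂ) (hp : ‖p‖ = 1) : p.re * p.re + p.im * p.im = 1 := by
  rw [← inner_c, real_inner_self_eq_norm_sq, hp, one_pow]

theorem inner_mul_left_q (p a b : ℍ[ℝ]) (hp : ‖p‖ = 1) :
    inner ℝ (p * a) (p * b) = inner ℝ a b := by
  have h := normsq_q p hp
  simp only [inner_q, Quaternion.re_mul, Quaternion.imI_mul, Quaternion.imJ_mul,
    Quaternion.imK_mul]
  linear_combination (a.re * b.re + a.imI * b.imI + a.imJ * b.imJ + a.imK * b.imK) * h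

theorem inner_mul_left_c (p a b : ℂ) (hp : ‖p‖ = 1) :
    inner ℝ (p * a) (p * b) = inner ℝ a b := by
  have h := normsq_c p hp
  simp only [inner_c, Complex.mul_re, Complex.mul_im]
  linear_combination (a.re * b.re + a.im * b.im) * h

theorem Ae (x : G) (i j : Fin 3) : A i x (e j x) = if i = j then 1 else 0 := by
  change inner ℝ (P x * u i) (mvfderiv J P x (e j x)) = _
  rw [dP_e, inner_mul_left_q _ _ _ (norm_P x), inner_u]

theorem Af (x : G) (i j : Fin 3) : A i x (f j x) = 0 := by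
  change inner ℝ (P x * u i) (mvfderiv J P x (f j x)) = _
  rw [dP_f, mul_zero, inner_zero_right]

theorem Be (x : G) (i j : Fin 3) : B i x (e j x) = 0 := by
  change inner ℝ (Z i x * Complex.I) (mvfderiv J (Z i) x (e j x)) = _
  rw [dZ_e, mul_zero, inner_zero_right]

theorem Bf (x : G) (i j : Fin 3) : B i x (f j x) = if i = j then 1 else 0 := by
  change inner ℝ (Z i x * Complex.I) (mvfderiv J (Z i) x (f j x)) = _
  rw [dZ_f, inner_mul_left_c _ _ _ (norm_Z i x)]
  split_ifs <;> simp [Complex.inner]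

theorem orth_P (x : G) (v : TangentSpace J x) : inner ℝ (P x) (mvfderiv J P x v) = 0 := by
  rw [dP]
  exact orth_cs x.1 v.1

theorem orth_Z (i : Fin 3) (x : G) (v : TangentSpace J x) :
    inner ℝ (Z i x) (mvfderiv J (Z i) x v) = 0 := by
  fin_cases i
  · change inner ℝ (Z0 x) (mvfderiv J Z0 x v) = 0
    rw [dZ0]
    exact orth_cc x.2.1 v.2.1
  · change inner ℝ (Z1 x) (mvfderiv J Z1 x v) = 0
    rw [dZ1]
    exact orth_cc x.2.2.1 v.2.2.1
  · change inner ℝ (Z2 x) (mvfderiv J Z2 x v) = 0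
    rw [dZ2]
    exact orth_cc x.2.2.2 v.2.2.2

theorem expand_q (p y : ℍ[ℝ]) (hp : ‖p‖ = 1) (hy : inner ℝ p y = 0) :
    y = ∑ i, (inner ℝ (p * u i) y) • (p * u i) := by
  have h := normsq_q p hp
  have h0 := inner_q p y
  rw [hy] at h0
  rw [Fin.sum_univ_three]
  apply Quaternion.ext
  all_goals
    simp only [inner_q, Quaternion.re_mul, Quaternion.imI_mul, Quaternion.imJ_mul,
      Quaternion.imK_mul, Quaternion.re_add, Quaternion.imI_add, Quaternion.imJ_add,
      Quaternion.imK_add, Quaternion.re_smul, Quaternion.imI_smul, Quaternion.imJ_smul,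
      Quaternion.imK_smul, u_re, u_imI, u_imJ, u_imK, smul_eq_mul, Fin.isValue, Fin.reduceEq,
      if_true, if_false]
  · linear_combination (-y.re) * h - p.re * h0
  · linear_combination (-y.imI) * h - p.imI * h0
  · linear_combination (-y.imJ) * h - p.imJ * h0
  · linear_combination (-y.imK) * h - p.imK * h0

theorem expand_c (p y : ℂ) (hp : ‖p‖ = 1) (hy : inner ℝ p y = 0) :
    y = (inner ℝ (p * Complex.I) y) • (p * Complex.I) := by
  have h := normsq_c p hp
  have h0 := inner_c p y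
  rw [hy] at h0
  apply Complex.ext
  · simp only [inner_c, Complex.real_smul, Complex.mul_re, Complex.mul_im, Complex.I_re,
      Complex.I_im, Complex.ofReal_re, Complex.ofReal_im]
    linear_combination (-y.re) * h - p.re * h0
  · simp only [inner_c, Complex.real_smul, Complex.mul_re, Complex.mul_im, Complex.I_re,
      Complex.I_im, Complex.ofReal_re, Complex.ofReal_im]
    linear_combination (-y.im) * h - p.im * h0

theorem expand (x : G) (v : TangentSpace J x) :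
    v = ∑ i, (A i x v) • e i x + ∑ i, (B i x v) • f i x := by
  rw [← sub_eq_zero]
  apply joint_inj
  · simp only [map_sub, map_add, map_sum, map_smul, dP_e, dP_f, mul_zero, smul_zero,
      Finset.sum_const_zero, add_zero]
    exact sub_eq_zero.mpr (expand_q (P x) _ (norm_P x) (orth_P x v))
  · intro k
    simp only [map_sub, map_add, map_sum, map_smul, dZ_e, dZ_f, mul_zero, smul_zero,
      Finset.sum_const_zero, zero_add]
    rw [Finset.sum_eq_single k]
    · rw [if_pos rfl]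
      exact sub_eq_zero.mpr (expand_c (Z k x) _ (norm_Z k x) (orth_Z k x v))
    · intro j _ hj
      rw [if_neg hj.symm]
      simp
    · simp

theorem e_ne (x : G) : e 0 x ≠ 0 := by
  intro h
  have := Ae x 0 0
  rw [h] at this
  simp at this

theorem i_mfd : IsManifold J ∞ G := inferInstance

theorem bee (x : G) (i : Fin 3) : mlieBracket J (e i) (e (i + 1)) x = (2 : ℝ) • e (i + 2) x := by
  rw [← sub_eq_zero]
  apply joint_inj
  · rw [map_sub, mvfderiv_bracket_mul P_smooth (e_smooth i) (e_smooth (i + 1)) (e_smooth 0) x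
      (e_ne x) (dP_e i) (dP_e (i + 1)), u_comm, map_smul, dP_e]
    simp
  · intro k
    rw [map_sub, mvfderiv_bracket_mul (Z_smooth k) (e_smooth i) (e_smooth (i + 1)) (e_smooth 0) x
      (e_ne x) (dZ_e k i) (dZ_e k (i + 1)), map_smul, dZ_e]
    simp

theorem bef (x : G) (i j : Fin 3) : mlieBracket J (e i) (f j) x = 0 := by
  apply joint_inj
  · rw [mvfderiv_bracket_mul P_smooth (e_smooth i) (f_smooth j) (e_smooth 0) x
      (e_ne x) (dP_e i) (dP_f j)]
    simp
  · intro k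
    rw [mvfderiv_bracket_mul (Z_smooth k) (e_smooth i) (f_smooth j) (e_smooth 0) x
      (e_ne x) (dZ_e k i) (dZ_f k j)]
    simp

theorem bff (x : G) (i j : Fin 3) : mlieBracket J (f i) (f j) x = 0 := by
  apply joint_inj
  · rw [mvfderiv_bracket_mul P_smooth (f_smooth i) (f_smooth j) (e_smooth 0) x
      (e_ne x) (dP_f i) (dP_f j)]
    simp
  · intro k
    rw [mvfderiv_bracket_mul (Z_smooth k) (f_smooth i) (f_smooth j) (e_smooth 0) x
      (e_ne x) (dZ_f k i) (dZ_f k j)]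
    split_ifs <;> simp

end Pool.Agent.Helper80.PR.Group
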