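import Mathlib

open Bundle VectorField Set Metric Module Function
open scoped Manifold ContDiff Topology Quaternion

set_option autoImplicit false

namespace Pool.Agent.Helper80.PR.Inv

section

variable {H : Type*} [TopologicalSpace H] {E : Type*} [NormedAddCommGroup E] [NormedSpace ℝ E]
  {I : ModelWithCorners ℝ E H} {G : Type*} [TopologicalSpace G] [ChartedSpace H G] [Group G]
  [LieGroup I ∞ G]

set_option backward.defeqAttrib.useBackward true in
set_option backward.isDefEq.respectTransparency false in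
theorem contMDiff_mulInvariantVectorField_top (v : GroupLieAlgebra I G) :
    CMDiff ∞ (fun (g : G) ↦ (mulInvariantVectorField v g : TangentBundle I G)) := by
  have i1 : IsManifold I ∞ G := ContMDiffMul.toIsManifold (I := I) (n := ∞) (G := G)
  have i1 : IsManifold I 1 G := IsManifold.of_le (n := ∞) ENat.LEInfty.out
  let fg : G → TangentBundle I G := fun g ↦ TotalSpace.mk' E g 0
  have sfg : CMDiff ∞ fg := contMDiff_zeroSection _ _
  let fv : G → TangentBundle I G := fun _ ↦ TotalSpace.mk' E 1 v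
  have sfv : CMDiff ∞ fv := contMDiff_const
  let F₁ : G → (TangentBundle I G × TangentBundle I G) := fun g ↦ (fg g, fv g)
  have S₁ : CMDiff ∞ F₁ := sfg.prodMk sfv
  let F₂ : (TangentBundle I G × TangentBundle I G) → TangentBundle (I.prod I) (G × G) :=
    (equivTangentBundleProd I G I G).symm
  have S₂ : CMDiff ∞ F₂ := contMDiff_equivTangentBundleProd_symm
  let F₃ : TangentBundle (I.prod I) (G × G) → TangentBundle I G :=
    tangentMap (I.prod I) I (fun (p : G × G) ↦ p.1 * p.2)
  have S₃ : CMDiff ∞ F₃ := by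
    apply ContMDiff.contMDiff_tangentMap _ (n := ∞) (by simp)
    exact contMDiff_mul I ∞
  let S := (S₃.comp S₂).comp S₁
  convert! S with g
  · simp [F₁, F₂, F₃, fg, fv]
  · simp only [comp_apply, tangentMap, F₃, F₂, F₁, fg, fv]
    rw [mfderiv_prod_eq_add_apply ((contMDiff_mul I ∞).mdifferentiableAt (by simp))]
    simp +instances [mulInvariantVectorField]

/-- A smooth multiplicative map `P` into a normed algebra has `dP (X_v x) = P x * dP_1 v` for the
left invariant vector field `X_v`. -/
theorem mvfderiv_mulInvariant {A : Type*} [NormedRing A] [NormedAlgebra ℝ A] {P : G → A}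
    (hP : ContMDiff I 𝓘(ℝ, A) ∞ P) (hmul : ∀ x y, P (x * y) = P x * P y)
    (v : GroupLieAlgebra I G) (x : G) :
    mvfderiv I P x (mulInvariantVectorField v x) = P x * mvfderiv I P 1 v := by
  have dP : ∀ y, MDifferentiableAt I 𝓘(ℝ, A) P y := fun y => (hP y).mdifferentiableAt (by simp)
  have dL : MDifferentiableAt I I (x * ·) (1 : G) :=
    ((contMDiff_mul_left (I := I) (n := ∞) (a := x)) 1).mdifferentiableAt (by simp)
  have h1 : mfderiv I 𝓘(ℝ, A) (P ∘ (x * ·)) 1 v = mfderiv I 𝓘(ℝ, A) P x (mfderiv I I (x * ·) 1 v) :=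
    mfderiv_comp_apply_of_eq (1 : G) (dP x) dL (mul_one x) v
  have h2 : P ∘ (x * ·) = (ContinuousLinearMap.mul ℝ A (P x)) ∘ P := by
    funext y
    simp [hmul]
  have h3 : mfderiv I 𝓘(ℝ, A) ((ContinuousLinearMap.mul ℝ A (P x)) ∘ P) 1 v
      = mfderiv 𝓘(ℝ, A) 𝓘(ℝ, A) (ContinuousLinearMap.mul ℝ A (P x)) (P 1)
        (mfderiv I 𝓘(ℝ, A) P 1 v) :=
    mfderiv_comp_apply (1 : G) (ContinuousLinearMap.mul ℝ A (P x)).mdifferentiableAt (dP 1) v
  rw [ContinuousLinearMap.mfderiv_eq] at h3
  rw [h2, h3] at h1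
  exact h1.symm

end

end Pool.Agent.Helper80.PR.Inv
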