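import Pool.Agent.Helper80.PR.Framed

open Bundle VectorField Set
open scoped Manifold ContDiff Topology

set_option autoImplicit false
set_option linter.unusedSectionVars false
set_option linter.unusedSimpArgs false

namespace Pool.Agent.Helper80.PR

section LC

variable {E : Type*} [NormedAddCommGroup E] [NormedSpace ℝ E]
  {H : Type*} [TopologicalSpace H] {I : ModelWithCorners ℝ E H}
  {M : Type*} [TopologicalSpace M] [ChartedSpace H M] [IsManifold I ∞ M]
  [CompleteSpace E]

/-- the zeroth order term of the connection -/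
noncomputable def gam (g : PseudoMetric I M) (e f : Fin 3 → Π x : M, TangentSpace I x) (x : M)
    (w : TangentSpace I x) : TangentSpace I x →L[ℝ] TangentSpace I x :=
  ∑ i, ((g.inner x w (f (i + 2) x)) • (g.inner x (f (i + 1) x))
      - (g.inner x w (f (i + 1) x)) • (g.inner x (f (i + 2) x))).smulRight (e i x)
  + ∑ i, ((g.inner x w (e (i + 2) x)) • (g.inner x (f (i + 1) x))
      - (g.inner x w (e (i + 1) x)) • (g.inner x (f (i + 2) x))
      - (g.inner x w (f (i + 2) x)) • (g.inner x (e (i + 1) x))
      + (g.inner x w (f (i + 1) x)) • (g.inner x (e (i + 2) x))).smulRight (f i x)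

/-- the connection -/
noncomputable def covFun (g : PseudoMetric I M) (e f : Fin 3 → Π x : M, TangentSpace I x)
    (σ : Π x : M, TangentSpace I x) (x : M) : TangentSpace I x →L[ℝ] TangentSpace I x :=
  ∑ i, (mvfderiv I (fun y ↦ g.inner y (σ y) (f i y)) x).smulRight (e i x)
  + ∑ i, (mvfderiv I (fun y ↦ g.inner y (σ y) (e i y)) x).smulRight (f i x)
  + gam g e f x (σ x)

theorem gam_apply (g : PseudoMetric I M) (e f : Fin 3 → Π x : M, TangentSpace I x) (x : M)
    (w v : TangentSpace I x) : gam g e f x w v =
  ∑ i, ((g.inner x w (f (i + 2) x)) * (g.inner x v (f (i + 1) x))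
      - (g.inner x w (f (i + 1) x)) * (g.inner x v (f (i + 2) x))) • (e i x)
  + ∑ i, ((g.inner x w (e (i + 2) x)) * (g.inner x v (f (i + 1) x))
      - (g.inner x w (e (i + 1) x)) * (g.inner x v (f (i + 2) x))
      - (g.inner x w (f (i + 2) x)) * (g.inner x v (e (i + 1) x))
      + (g.inner x w (f (i + 1) x)) * (g.inner x v (e (i + 2) x))) • (f i x) := by
  simp only [gam, add_apply, sum_apply, sub_apply, smul_apply,
    ContinuousLinearMap.smulRight_apply, smul_eq_mul, g.symm x v]

theorem covFun_apply (g : PseudoMetric I M) (e f : Fin 3 → Π x : M, TangentSpace I x)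
    (σ : Π x : M, TangentSpace I x) (x : M) (v : TangentSpace I x) : covFun g e f σ x v =
  ∑ i, (mvfderiv I (fun y ↦ g.inner y (σ y) (f i y)) x v) • (e i x)
  + ∑ i, (mvfderiv I (fun y ↦ g.inner y (σ y) (e i y)) x v) • (f i x)
  + gam g e f x (σ x) v := by
  simp only [covFun, add_apply, sum_apply, ContinuousLinearMap.smulRight_apply]

variable {g : PseudoMetric I M} {e f : Fin 3 → Π x : M, TangentSpace I x}

theorem gam_add (x : M) (w w' : TangentSpace I x) :
    gam g e f x (w + w') = gam g e f x w + gam g e f x w' := by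
  ext v
  simp only [gam_apply, map_add, add_apply, Fin.sum_univ_three]
  module

theorem gam_smul (x : M) (c : ℝ) (w : TangentSpace I x) :
    gam g e f x (c • w) = c • gam g e f x w := by
  ext v
  simp only [gam_apply, map_smul, smul_apply, Fin.sum_univ_three, smul_eq_mul]
  module

theorem isCov (F : Framing g e f) :
    IsCovariantDerivativeOn (I := I) (V := fun x : M => TangentSpace I x) E (covFun g e f) := by
  have de : ∀ i x, MDiffAt (T% (e i)) x := fun i x => ((F.e_smooth i) x).mdifferentiableAt (by simp)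
  have df : ∀ i x, MDiffAt (T% (f i)) x := fun i x => ((F.f_smooth i) x).mdifferentiableAt (by simp)
  constructor
  · intro σ σ' x hσ hσ' _
    ext v
    rw [add_apply]
    have h1 : ∀ (W : Π x : M, TangentSpace I x), MDiffAt (T% W) x →
        mvfderiv I (fun y ↦ g.inner y (σ y + σ' y) (W y)) x
        = mvfderiv I (fun y ↦ g.inner y (σ y) (W y)) x
          + mvfderiv I (fun y ↦ g.inner y (σ' y) (W y)) x := by
      intro W hW
      have : (fun y ↦ g.inner y (σ y + σ' y) (W y)) = (fun y ↦ g.inner y (σ y) (W y))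
          + (fun y ↦ g.inner y (σ' y) (W y)) := by
        funext y; simp
      rw [this, mvfderiv_add (g.mdifferentiableAt_inner hσ hW) (g.mdifferentiableAt_inner hσ' hW)]
    have h2 := fun i => h1 _ (de i x)
    have h3 := fun i => h1 _ (df i x)
    simp only [covFun_apply, h2, h3, Pi.add_apply, gam_add, add_apply, Fin.sum_univ_three]
    module
  · intro σ h x hσ hh _
    ext v
    have h1 : ∀ (W : Π x : M, TangentSpace I x), MDiffAt (T% W) x →
        mvfderiv I (fun y ↦ g.inner y (h y • σ y) (W y)) x v
        = h x * mvfderiv I (fun y ↦ g.inner y (σ y) (W y)) x v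
          + mvfderiv I h x v * g.inner x (σ x) (W x) := by
      intro W hW
      have : (fun y ↦ g.inner y (h y • σ y) (W y)) = h * (fun y ↦ g.inner y (σ y) (W y)) := by
        funext y; simp
      rw [this, mvfderiv_mul hh (g.mdifferentiableAt_inner hσ hW)]
      simp only [add_apply, smul_apply, smul_eq_mul]
      ring
    have h2 := fun i => h1 _ (de i x)
    have h3 := fun i => h1 _ (df i x)
    rw [add_apply, smul_apply, ContinuousLinearMap.smulRight_apply]
    conv_rhs => rw [F.expand x (σ x)]
    simp only [covFun_apply, h2, h3, Pi.smul_apply', gam_smul, smul_apply, Fin.sum_univ_three]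
    module

/-- The Levi-Civita connection of a framed metric. -/
noncomputable def lcConn (F : Framing g e f) :
    CovariantDerivative I E (TangentSpace I : M → Type _) where
  toFun := covFun g e f
  isCovariantDerivativeOnUniv := isCov F

theorem lcConn_apply (F : Framing g e f) (σ : Π x : M, TangentSpace I x) (x : M)
    (v : TangentSpace I x) : lcConn F σ x v =
  ∑ i, (mvfderiv I (fun y ↦ g.inner y (σ y) (f i y)) x v) • (e i x)
  + ∑ i, (mvfderiv I (fun y ↦ g.inner y (σ y) (e i y)) x v) • (f i x)
  + gam g e f x (σ x) v := covFun_apply g e f σ x v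

theorem lc_metric (F : Framing g e f) (Y Z : Π x : M, TangentSpace I x) (x : M)
    (hY : MDiffAt (T% Y) x) (hZ : MDiffAt (T% Z) x) (v : TangentSpace I x) :
      mvfderiv I (fun y ↦ g.inner y (Y y) (Z y)) x v
        = g.inner x (lcConn F Y x v) (Z x) + g.inner x (Y x) (lcConn F Z x v) := by
  have de : ∀ i x, MDiffAt (T% (e i)) x := fun i x => ((F.e_smooth i) x).mdifferentiableAt (by simp)
  have df : ∀ i x, MDiffAt (T% (f i)) x := fun i x => ((F.f_smooth i) x).mdifferentiableAt (by simp)
  have gexp : ∀ y (u w : TangentSpace I y), g.inner y u w =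
      ∑ i, (g.inner y u (f i y)) * (g.inner y w (e i y))
      + ∑ i, (g.inner y u (e i y)) * (g.inner y w (f i y)) := by
    intro y u w
    conv_lhs => rw [F.expand y u]
    simp only [map_add, map_sum, map_smul, add_apply, sum_apply, smul_apply, smul_eq_mul]
    simp only [g.symm y (e _ y) w, g.symm y (f _ y) w]
  have h1 : (fun y ↦ g.inner y (Y y) (Z y)) =
      (∑ i, (fun y ↦ g.inner y (Y y) (f i y)) * (fun y ↦ g.inner y (Z y) (e i y)))
      + ∑ i, (fun y ↦ g.inner y (Y y) (e i y)) * (fun y ↦ g.inner y (Z y) (f i y)) := by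
    funext y
    rw [gexp y (Y y) (Z y)]
    simp
  have dYe := fun i => g.mdifferentiableAt_inner hY (de i x)
  have dYf := fun i => g.mdifferentiableAt_inner hY (df i x)
  have dZe := fun i => g.mdifferentiableAt_inner hZ (de i x)
  have dZf := fun i => g.mdifferentiableAt_inner hZ (df i x)
  have h2 : mvfderiv I (fun y ↦ g.inner y (Y y) (Z y)) x v =
      ∑ i, (g.inner x (Y x) (f i x) * mvfderiv I (fun y ↦ g.inner y (Z y) (e i y)) x v
        + g.inner x (Z x) (e i x) * mvfderiv I (fun y ↦ g.inner y (Y y) (f i y)) x v)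
      + ∑ i, (g.inner x (Y x) (e i x) * mvfderiv I (fun y ↦ g.inner y (Z y) (f i y)) x v
        + g.inner x (Z x) (f i x) * mvfderiv I (fun y ↦ g.inner y (Y y) (e i y)) x v) := by
    rw [h1]
    simp only [Fin.sum_univ_three]
    rw [mvfderiv_add, mvfderiv_add, mvfderiv_add, mvfderiv_add, mvfderiv_add,
      mvfderiv_mul (dYf 0) (dZe 0), mvfderiv_mul (dYf 1) (dZe 1), mvfderiv_mul (dYf 2) (dZe 2),
      mvfderiv_mul (dYe 0) (dZf 0), mvfderiv_mul (dYe 1) (dZf 1), mvfderiv_mul (dYe 2) (dZf 2)]
    · simp only [add_apply, smul_apply, smul_eq_mul]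
    all_goals first
      | exact (dYf _).mul (dZe _)
      | exact (dYe _).mul (dZf _)
      | exact ((dYf _).mul (dZe _)).add ((dYf _).mul (dZe _))
      | exact ((dYe _).mul (dZf _)).add ((dYe _).mul (dZf _))
      | exact (((dYf _).mul (dZe _)).add ((dYf _).mul (dZe _))).add ((dYf _).mul (dZe _))
      | exact (((dYe _).mul (dZf _)).add ((dYe _).mul (dZf _))).add ((dYe _).mul (dZf _))
  rw [h2, gexp x (lcConn F Y x v) (Z x), g.symm x (Y x) (lcConn F Z x v),
    gexp x (lcConn F Z x v) (Y x)]
  have gfe : ∀ x i j, g.inner x (f i x) (e j x) = if j = i then 1 else 0 := by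
    intro x i j; rw [g.symm]; exact F.gef x j i
  simp only [lcConn_apply, gam_apply, Fin.sum_univ_three, Fin.isValue, Fin.reduceAdd, zero_add,
    map_add, map_smul, add_apply, smul_apply, smul_eq_mul, F.gee, F.gff, F.gef, gfe,
    Fin.reduceEq, if_true, if_false, mul_zero, add_zero, mul_one]
  ring

theorem lc_torsion [FiniteDimensional ℝ E] (F : Framing g e f) (X Y : Π x : M, TangentSpace I x)
    (x : M) (hX : MDiffAt (T% X) x) (hY : MDiffAt (T% Y) x) :
    lcConn F Y x (X x) - lcConn F X x (Y x) = mlieBracket I X Y x := by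
  have i2 : IsManifold I 2 M := IsManifold.of_le (n := ∞) ENat.LEInfty.out
  have de : ∀ i x, MDiffAt (T% (e i)) x := fun i x => ((F.e_smooth i) x).mdifferentiableAt (by simp)
  have df : ∀ i x, MDiffAt (T% (f i)) x := fun i x => ((F.f_smooth i) x).mdifferentiableAt (by simp)
  have gfe : ∀ x i j, g.inner x (f i x) (e j x) = if j = i then 1 else 0 := by
    intro x i j; rw [g.symm]; exact F.gef x j i
  suffices hT : (lcConn F).torsion = 0 from (lcConn F).torsion_eq_zero_iff.mp hT hX hY
  have Tef : ∀ x i j, (lcConn F).torsion x (e i x) (f j x) = 0 := by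
    intro x i j
    rw [(lcConn F).torsion_apply (de i x) (df j x), F.bef]
    simp only [lcConn_apply, gam_apply, Fin.sum_univ_three, Fin.isValue, Fin.reduceAdd, zero_add,
      F.gee, F.gff, F.gef, gfe, mvfderiv_const, zero_apply, zero_smul, mul_zero, zero_mul, add_zero,
      sub_zero, zero_sub]
    fin_cases i <;> fin_cases j <;> simp
  have Tff : ∀ x i j, (lcConn F).torsion x (f i x) (f j x) = 0 := by
    intro x i j
    rw [(lcConn F).torsion_apply (df i x) (df j x), F.bff]
    simp only [lcConn_apply, gam_apply, Fin.sum_univ_three, Fin.isValue, Fin.reduceAdd, zero_add,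
      F.gee, F.gff, F.gef, gfe, mvfderiv_const, zero_apply, zero_smul, mul_zero, zero_mul, add_zero,
      sub_zero, zero_sub]
  have Tee : ∀ x i j, (lcConn F).torsion x (e i x) (e j x) = 0 := by
    intro x i j
    have hb : mlieBracket I (e i) (e j) x = if j = i + 1 then (2 : ℝ) • e (i + 2) x else
        if j = i + 2 then -((2 : ℝ) • e (i + 1) x) else 0 := by
      have hk : j = i ∨ j = i + 1 ∨ j = i + 2 := by
        fin_cases i <;> fin_cases j <;> decide
      have n1 : ∀ i : Fin 3, ¬ (i = i + 1) := by decide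
      have n2 : ∀ i : Fin 3, ¬ (i = i + 2) := by decide
      have n3 : ∀ i : Fin 3, ¬ (i + 2 = i + 1) := by decide
      have a5 : ∀ i : Fin 3, (i + 2 + 1 : Fin 3) = i := by decide
      have a6 : ∀ i : Fin 3, (i + 2 + 2 : Fin 3) = i + 1 := by decide
      rcases hk with rfl | rfl | rfl
      · simp [n1, n2]
      · simp [F.bee]
      · rw [if_neg (n3 i), if_pos rfl, mlieBracket_swap_apply]
        have := F.bee x (i + 2)
        rw [a5, a6] at this
        rw [this]
    rw [(lcConn F).torsion_apply (de i x) (de j x), hb]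
    simp only [lcConn_apply, gam_apply, Fin.sum_univ_three, Fin.isValue, Fin.reduceAdd, zero_add,
      F.gee, F.gff, F.gef, gfe, mvfderiv_const, zero_apply, zero_smul, mul_zero, zero_mul, add_zero,
      sub_zero, zero_sub]
    fin_cases i <;> fin_cases j <;> simp
    all_goals module
  funext x
  ext u v
  have Tfe : ∀ i j, (lcConn F).torsion x (f i x) (e j x) = 0 := by
    intro i j
    rw [(lcConn F).torsion_antisymm, Tef, neg_zero]
  change (lcConn F).torsion x u v = 0
  rw [F.expand x u, F.expand x v]
  simp only [map_add, map_sum, map_smul, add_apply, sum_apply, smul_apply, Tee, Tef, Tfe, Tff,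
    smul_zero, Finset.sum_const_zero, add_zero]

theorem lcConn_isLeviCivita [FiniteDimensional ℝ E] (F : Framing g e f) :
    IsLeviCivita g (lcConn F) where
  torsion_free := lc_torsion F
  metric := lc_metric F

/-- the nilpotent endomorphism field -/
noncomputable def nilEnd (g : PseudoMetric I M) (f : Fin 3 → Π x : M, TangentSpace I x) (x : M) :
    TangentSpace I x →L[ℝ] TangentSpace I x :=
  ∑ i, (g.inner x (f i x)).smulRight (f i x)

theorem nilEnd_apply (g : PseudoMetric I M) (f : Fin 3 → Π x : M, TangentSpace I x) (x : M)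
    (v : TangentSpace I x) : nilEnd g f x v = ∑ i, (g.inner x v (f i x)) • f i x := by
  simp only [nilEnd, sum_apply, ContinuousLinearMap.smulRight_apply, g.symm x v]

theorem nilEnd_sq (F : Framing g e f) (x : M) (v : TangentSpace I x) :
    nilEnd g f x (nilEnd g f x v) = 0 := by
  simp only [nilEnd_apply, map_sum, map_smul, sum_apply, smul_apply, F.gff, smul_zero,
    Finset.sum_const_zero, zero_smul]

theorem nilEnd_e (F : Framing g e f) (x : M) (i : Fin 3) : nilEnd g f x (e i x) = f i x := by
  simp [nilEnd_apply, F.gef]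

theorem nilEnd_selfadjoint (g : PseudoMetric I M) (f : Fin 3 → Π x : M, TangentSpace I x) (x : M)
    (v w : TangentSpace I x) :
    g.inner x (nilEnd g f x v) w = g.inner x v (nilEnd g f x w) := by
  simp only [nilEnd_apply, map_sum, map_smul, sum_apply, smul_apply, smul_eq_mul]
  refine Finset.sum_congr rfl fun i _ => ?_
  rw [g.symm x (f i x) w]
  ring

theorem nilEnd_parallel (F : Framing g e f) (Y : Π x : M, TangentSpace I x) (x : M)
    (hY : MDiffAt (T% Y) x) (v : TangentSpace I x) :
    lcConn F (fun y => nilEnd g f y (Y y)) x v = nilEnd g f x (lcConn F Y x v) := by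
  have gfe : ∀ x i j, g.inner x (f i x) (e j x) = if j = i then 1 else 0 := by
    intro x i j; rw [g.symm]; exact F.gef x j i
  simp only [lcConn_apply, gam_apply, nilEnd_apply, Fin.sum_univ_three, Fin.isValue,
    Fin.reduceAdd, zero_add,
    map_add, map_smul, add_apply, smul_apply, smul_eq_mul, F.gee, F.gff, F.gef, gfe,
    Fin.reduceEq, if_true, if_false, mul_zero, add_zero, mul_one, mvfderiv_const, zero_apply]
  module

end LC

end Pool.Agent.Helper80.PR
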