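import Pool.Agent.Helper80.PR.Mk

open Bundle VectorField Set
open scoped Manifold ContDiff Topology

set_option autoImplicit false

namespace Pool.Agent.Helper80.PR

variable {E : Type*} [NormedAddCommGroup E] [NormedSpace ℝ E] [FiniteDimensional ℝ E]
  {H : Type*} [TopologicalSpace H] {I : ModelWithCorners ℝ E H}
  {M : Type*} [TopologicalSpace M] [ChartedSpace H M] [IsManifold I ∞ M]

theorem carries_of_coframing {A B : Fin 3 → Π x : M, TangentSpace I x →L[ℝ] ℝ}
    {e f : Fin 3 → Π x : M, TangentSpace I x} (C : Coframing A B e f) (x₀ : M) :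
    CarriesNilpotentTensor (mkMetric C) := by
  have hE : CompleteSpace E := FiniteDimensional.complete ℝ E
  have F := mkFraming C
  refine ⟨lcConn F, lcConn_isLeviCivita F, nilEnd (mkMetric C) f, nilEnd_smooth C, ?_,
      nilEnd_selfadjoint (mkMetric C) f, ⟨2, by norm_num, ?_⟩, nilEnd_parallel F⟩
  · refine ⟨x₀, fun h => ?_⟩
    have h1 := nilEnd_e F x₀ 0
    rw [h] at h1
    have h2 := C.Bf x₀ 0 0
    rw [← h1] at h2
    simp at h2
  · intro x
    ext v
    rw [pow_two]
    exact nilEnd_sq F x v

theorem not_carries_of_framing {g : PseudoMetric I M}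
    {e f : Fin 3 → Π x : M, TangentSpace I x} (F : Framing g e f) :
    ¬ CarriesNullParallelField g := by
  have hE : CompleteSpace E := FiniteDimensional.complete ℝ E
  rintro ⟨cov, hcov, V, hV, ⟨x, hx⟩, -, hpar⟩
  exact hx (F.parallel_zero hcov hV hpar x)

theorem cover_of_framing {g : PseudoMetric I M}
    {e f : Fin 3 → Π x : M, TangentSpace I x} (F : Framing g e f)
    {E' : Type*} [NormedAddCommGroup E'] [NormedSpace ℝ E'] [FiniteDimensional ℝ E']
    {H' : Type*} [TopologicalSpace H'] {I' : ModelWithCorners ℝ E' H'}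
    {M' : Type*} [TopologicalSpace M'] [ChartedSpace H' M'] [IsManifold I' ∞ M']
    {g' : PseudoMetric I' M'} {p : M' → M} (hp : IsDoubleCover g' g p) :
    (∃ cov : CovariantDerivative I' E' (TangentSpace I' : M' → Type _), IsLeviCivita g' cov) ∧
      ¬ CarriesNullParallelField g' := by
  have hE : CompleteSpace E := FiniteDimensional.complete ℝ E
  have hE' : CompleteSpace E' := FiniteDimensional.complete ℝ E'
  have F' := F.pullback hp.local_diffeo hp.pullback
  exact ⟨⟨lcConn F', lcConn_isLeviCivita F'⟩, not_carries_of_framing F'⟩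

end Pool.Agent.Helper80.PR
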